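import Pool.Agent.H508R3.AT.Stmts

/-! Task T7 of project 508-AT (helper217). -/

set_option autoImplicit false

open MeasureTheory Filter Topology Set

namespace Pool.Agent.H217R3.AT7

open Pool.Agent.H508R3.AT (sq T7)

/-- shear -/
def Sh (t : ℝ) (z : ℝ × ℝ) : ℝ × ℝ := (z.1, z.2 + t * z.1)

lemma Sh_meas (t : ℝ) : Measurable (Sh t) := by unfold Sh; fun_prop

lemma Sh_mp (t : ℝ) : MeasurePreserving (Sh t) volume volume := by
  have := MeasurePreserving.skew_product (μa := (volume : Measure ℝ))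
    (μc := (volume : Measure ℝ)) (μb := volume) (μd := volume) (MeasurePreserving.id volume)
    (g := fun a c => c + t * a) (by fun_prop)
    (ae_of_all _ fun a => (map_add_right_eq_self volume (t * a)))
  exact this

lemma Sh_add (s t : ℝ) (z : ℝ × ℝ) : Sh s (Sh t z) = Sh (s + t) z := by
  unfold Sh
  ext
  · simp
  · simp; ring

lemma Sh_zero (z : ℝ × ℝ) : Sh 0 z = z := by
  unfold Sh; simp

lemma int_Sh (t : ℝ) (F : ℝ × ℝ → ℝ) (hF : Measurable F) :
    ∫ z, F (Sh t z) = ∫ z, F z := by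
  rw [← integral_map (Sh_meas t).aemeasurable hF.aestronglyMeasurable, (Sh_mp t).map_eq]

lemma intble_Sh (t : ℝ) (F : ℝ × ℝ → ℝ) (hF : Integrable F) :
    Integrable (fun z => F (Sh t z)) :=
  ((Sh_mp t).integrable_comp hF.aestronglyMeasurable).2 hF

section
variable {g : ℝ × ℝ → ℝ} (hm : Measurable g) (hg : ∀ z, 0 ≤ g z ∧ g z ≤ 1) (hi : Integrable g)
include hm hg hi

lemma intble_sq (t : ℝ) : Integrable (fun z => (g z - g (Sh t z)) ^ 2) := by
  have h1 := intble_Sh t g hi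
  refine Integrable.mono' (hi.add h1) ?_ ?_
  · exact ((hm.sub (hm.comp (Sh_meas t))).pow_const 2).aestronglyMeasurable
  · refine ae_of_all _ fun z => ?_
    rw [Real.norm_eq_abs, abs_of_nonneg (sq_nonneg _)]
    have h2 := hg z
    have h3 := hg (Sh t z)
    simp only [Pi.add_apply]
    nlinarith [mul_nonneg h2.1 h3.1, mul_nonneg h2.1 (sub_nonneg.2 h2.2),
      mul_nonneg h3.1 (sub_nonneg.2 h3.2)]

lemma I_mul (m : ℕ) (t : ℝ) : ∫ z, (g z - g (Sh (m * t) z)) ^ 2 ≤
    (m : ℝ) ^ 2 * ∫ z, (g z - g (Sh t z)) ^ 2 := by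
  have hF : Measurable (fun z => (g z - g (Sh t z)) ^ 2) :=
    (hm.sub (hm.comp (Sh_meas t))).pow_const 2
  have h0 : ∀ i : ℕ, Integrable (fun z => (g (Sh (i * t) z) - g (Sh ((i + 1 : ℕ) * t) z)) ^ 2) ∧
      ∫ z, (g (Sh (i * t) z) - g (Sh ((i + 1 : ℕ) * t) z)) ^ 2 =
        ∫ z, (g z - g (Sh t z)) ^ 2 := by
    intro i
    have e : (fun z => (g (Sh (i * t) z) - g (Sh ((i + 1 : ℕ) * t) z)) ^ 2) =
        fun z => (fun w => (g w - g (Sh t w)) ^ 2) (Sh (i * t) z) := by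
      funext z
      simp only [Sh_add]
      congr 4
      push_cast; ring
    rw [e]
    exact ⟨intble_Sh _ _ (intble_sq hm hg hi t), int_Sh _ _ hF⟩
  have h1 : ∀ z, (g z - g (Sh (m * t) z)) ^ 2 ≤
      m * ∑ i ∈ Finset.range m, (g (Sh (i * t) z) - g (Sh ((i + 1 : ℕ) * t) z)) ^ 2 := by
    intro z
    have h2 : g z - g (Sh (m * t) z) =
        ∑ i ∈ Finset.range m, (g (Sh (i * t) z) - g (Sh ((i + 1 : ℕ) * t) z)) := by
      rw [Finset.sum_range_sub' (fun i : ℕ => g (Sh (i * t) z))]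
      simp [Sh_zero]
    rw [h2]
    have h3 := sq_sum_le_card_mul_sum_sq (s := Finset.range m)
      (f := fun i : ℕ => (g (Sh (i * t) z) - g (Sh ((i + 1 : ℕ) * t) z)))
    simpa using h3
  calc ∫ z, (g z - g (Sh (m * t) z)) ^ 2
      ≤ ∫ z, m * ∑ i ∈ Finset.range m, (g (Sh (i * t) z) - g (Sh ((i + 1 : ℕ) * t) z)) ^ 2 := by
        apply integral_mono (intble_sq hm hg hi _) _ h1
        exact (integrable_finsetSum _ fun i _ => (h0 i).1).const_mul _
    _ = m * ∑ i ∈ Finset.range m, ∫ z, (g z - g (Sh t z)) ^ 2 := by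
        rw [integral_const_mul, integral_finsetSum _ fun i _ => (h0 i).1]
        congr 1
        exact Finset.sum_congr rfl fun i _ => (h0 i).2
    _ = (m : ℝ) ^ 2 * ∫ z, (g z - g (Sh t z)) ^ 2 := by
        rw [Finset.sum_const, Finset.card_range, nsmul_eq_mul]; ring

lemma big_shift {β r ρ τ : ℝ} (hβ : 0 < β) (hr : 0 < r) (hρ : ρ = β / (8 * r)) (k : ℕ)
    (hk : 16 / β ≤ k) (hi4 : ∫ z, g z ≤ 4)
    (hmass : β ≤ ∫ z in {z : ℝ × ℝ | z.1 ^ 2 + z.2 ^ 2 ≤ r ^ 2}, g z)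
    (hτ : 4 * r / ρ ≤ |τ|) :
    β ^ 2 / (64 * r ^ 2) / (k : ℝ) ^ 2 ≤ ∫ z, (g z - g (Sh τ z)) ^ 2 := by
  have hρ0 : 0 < ρ := by rw [hρ]; positivity
  have hk0 : (0 : ℝ) < k := lt_of_lt_of_le (by positivity) hk
  set Dr : Set (ℝ × ℝ) := {z : ℝ × ℝ | z.1 ^ 2 + z.2 ^ 2 ≤ r ^ 2} with hDr
  have hDm : MeasurableSet Dr := measurableSet_le (by fun_prop) measurable_const
  set Q : Set (ℝ × ℝ) := {z : ℝ × ℝ | z.1 ^ 2 + z.2 ^ 2 ≤ r ^ 2 ∧ ρ ≤ |z.1|} with hQ
  have hQm : MeasurableSet Q := by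
    have h1 : MeasurableSet {z : ℝ × ℝ | ρ ≤ |z.1|} :=
      measurableSet_le measurable_const (by fun_prop)
    exact hDm.inter h1
  have hQD : Q ⊆ Dr := fun z hz => hz.1
  have habs : ∀ z ∈ Dr, |z.1| ≤ r ∧ |z.2| ≤ r := by
    intro z hz
    have h : z.1 ^ 2 + z.2 ^ 2 ≤ r ^ 2 := hz
    exact ⟨abs_le_of_sq_le_sq (by nlinarith [sq_nonneg z.2]) hr.le,
      abs_le_of_sq_le_sq (by nlinarith [sq_nonneg z.1]) hr.le⟩
  have hvolbox : ∀ a b : ℝ, 0 ≤ a → 0 ≤ b →
      (volume : Measure (ℝ × ℝ)) (Icc (-a) a ×ˢ Icc (-b) b) = ENNReal.ofReal (4 * a * b) := by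
    intro a b ha hb
    rw [Measure.volume_eq_prod, Measure.prod_prod, Real.volume_Icc, Real.volume_Icc,
      ← ENNReal.ofReal_mul (by linarith)]
    congr 1; ring
  have hDbox : Dr ⊆ Icc (-r) r ×ˢ Icc (-r) r := by
    intro z hz
    have := habs z hz
    exact ⟨abs_le.1 this.1, abs_le.1 this.2⟩
  have hDfin : volume Dr ≤ ENNReal.ofReal (4 * r * r) :=
    (measure_mono hDbox).trans (hvolbox r r hr.le hr.le).le
  have hQfin : volume Q ≤ ENNReal.ofReal (4 * r * r) := (measure_mono hQD).trans hDfin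
  have hQlt : volume Q < ⊤ := lt_of_le_of_lt hQfin ENNReal.ofReal_lt_top
  have hQreal : volume.real Q ≤ 4 * r * r := by
    rw [Measure.real]
    exact ENNReal.toReal_le_of_le_ofReal (by positivity) hQfin
  -- mass of the strip
  have hstrip : ∫ z in Dr \ Q, g z ≤ β / 2 := by
    have hsub : Dr \ Q ⊆ Icc (-ρ) ρ ×ˢ Icc (-r) r := by
      intro z hz
      have h1 := habs z hz.1
      have h2 : |z.1| ≤ ρ := by
        by_contra hcon
        push Not at hcon
        exact hz.2 ⟨hz.1, hcon.le⟩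
      exact ⟨abs_le.1 h2, abs_le.1 h1.2⟩
    have hv : volume (Dr \ Q) ≤ ENNReal.ofReal (4 * ρ * r) :=
      (measure_mono hsub).trans (hvolbox ρ r hρ0.le hr.le).le
    have hvt : volume (Dr \ Q) < ⊤ := lt_of_le_of_lt hv ENNReal.ofReal_lt_top
    calc ∫ z in Dr \ Q, g z ≤ ∫ z in Dr \ Q, (1 : ℝ) := by
          apply setIntegral_mono_on hi.integrableOn
            (integrableOn_const (hs := hvt.ne) (hC := by simp)) (hDm.diff hQm)
          intro z _; exact (hg z).2
      _ = volume.real (Dr \ Q) := by simp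
      _ ≤ 4 * ρ * r := by
          rw [Measure.real]
          exact ENNReal.toReal_le_of_le_ofReal (by positivity) hv
      _ = β / 2 := by rw [hρ]; field_simp; ring
  have hQmass : β / 2 ≤ ∫ z in Q, g z := by
    have h1 : ∫ z in Dr, g z = (∫ z in Q, g z) + ∫ z in Dr \ Q, g z := by
      rw [← setIntegral_union disjoint_sdiff_right (hDm.diff hQm) hi.integrableOn hi.integrableOn,
        union_sdiff_cancel hQD]
    linarith
  -- the shifted sets are disjoint
  classical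
  set q : ℝ × ℝ → ℝ := Q.indicator (fun _ => 1) with hq
  have hqm : Measurable q := measurable_const.indicator hQm
  have hq01 : ∀ z, 0 ≤ q z ∧ q z ≤ 1 := by
    intro z
    by_cases h : z ∈ Q <;> simp [hq, h]
  have hdisj : ∀ z, ∑ i ∈ Finset.range k, q (Sh (-((i + 1 : ℕ) * τ)) z) ≤ 1 := by
    intro z
    have h1 : ∀ i : ℕ, q (Sh (-((i + 1 : ℕ) * τ)) z) =
        if Sh (-((i + 1 : ℕ) * τ)) z ∈ Q then 1 else 0 := by
      intro i
      simp only [hq, indicator_apply]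
    simp only [h1]
    rw [Finset.sum_ite]
    simp only [Finset.sum_const_zero, add_zero, Finset.sum_const, nsmul_eq_mul, mul_one]
    have h2 : (Finset.filter (fun i : ℕ => Sh (-((i + 1 : ℕ) * τ)) z ∈ Q)
        (Finset.range k)).card ≤ 1 := by
      rw [Finset.card_le_one]
      intro i hi' j hj'
      rw [Finset.mem_filter] at hi' hj'
      by_contra hne
      have hi2 := hi'.2
      have hj2 := hj'.2
      have ai := habs _ (hQD hi2)
      have aj := habs _ (hQD hj2)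
      have hz1 : ρ ≤ |z.1| := hi2.2
      have e1 : (Sh (-((i + 1 : ℕ) * τ)) z).2 = z.2 - (i + 1) * τ * z.1 := by
        simp [Sh]; ring
      have e2 : (Sh (-((j + 1 : ℕ) * τ)) z).2 = z.2 - (j + 1) * τ * z.1 := by
        simp [Sh]; ring
      rw [e1] at ai
      rw [e2] at aj
      have h3 : |((i : ℝ) - j) * τ * z.1| ≤ 2 * r := by
        have : ((i : ℝ) - j) * τ * z.1 = (z.2 - (j + 1) * τ * z.1) - (z.2 - (i + 1) * τ * z.1) := by
          ring
        rw [this]
        refine (abs_sub _ _).trans ?_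
        linarith [ai.2, aj.2]
      have h4 : (1 : ℝ) ≤ |(i : ℝ) - j| := by
        have h5 : ((i : ℤ) - j) ≠ 0 := by
          intro h; apply hne; omega
        have h6 := Int.one_le_abs h5
        have h7 : ((1 : ℤ) : ℝ) ≤ ((|(i : ℤ) - j| : ℤ) : ℝ) := by exact_mod_cast h6
        push_cast at h7
        simpa using h7
      rw [abs_mul, abs_mul] at h3
      have h8 : 4 * r ≤ |τ| * |z.1| := by
        have : 4 * r = 4 * r / ρ * ρ := by field_simp
        rw [this]
        exact mul_le_mul hτ hz1 hρ0.le (abs_nonneg _)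
      have h9 : |τ| * |z.1| ≤ |(i : ℝ) - j| * |τ| * |z.1| := by
        have : 0 ≤ |τ| * |z.1| := by positivity
        nlinarith
      linarith
    exact_mod_cast h2
  have hqi : ∀ i : ℕ, Integrable (fun z => q (Sh (-((i + 1 : ℕ) * τ)) z) * g z) := by
    intro i
    refine Integrable.mono' hi ((hqm.comp (Sh_meas _)).mul hm).aestronglyMeasurable ?_
    refine ae_of_all _ fun z => ?_
    have h1 := hq01 (Sh (-((i + 1 : ℕ) * τ)) z)
    have h2 := hg z
    rw [Real.norm_eq_abs, abs_of_nonneg (mul_nonneg h1.1 h2.1)]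
    nlinarith [h1.2, h2.1]
  have hshift : ∀ i : ℕ, ∫ z in Q, g (Sh ((i + 1 : ℕ) * τ) z) =
      ∫ z, q (Sh (-((i + 1 : ℕ) * τ)) z) * g z := by
    intro i
    rw [← int_Sh ((i + 1 : ℕ) * τ) (fun z => q (Sh (-((i + 1 : ℕ) * τ)) z) * g z)
      ((hqm.comp (Sh_meas _)).mul hm), ← integral_indicator hQm]
    congr 1
    funext z
    simp only [Sh_add]
    rw [neg_add_cancel, Sh_zero]
    by_cases h : z ∈ Q <;> simp [hq, h]
  have hsum : ∑ i ∈ Finset.range k, ∫ z in Q, g (Sh ((i + 1 : ℕ) * τ) z) ≤ 4 := by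
    calc ∑ i ∈ Finset.range k, ∫ z in Q, g (Sh ((i + 1 : ℕ) * τ) z)
        = ∫ z, ∑ i ∈ Finset.range k, q (Sh (-((i + 1 : ℕ) * τ)) z) * g z := by
          rw [integral_finsetSum _ fun i _ => hqi i]
          exact Finset.sum_congr rfl fun i _ => hshift i
      _ ≤ ∫ z, g z := by
          apply integral_mono (integrable_finsetSum _ fun i _ => hqi i) hi
          intro z
          simp only
          rw [← Finset.sum_mul]
          have h1 := hdisj z
          have h2 := (hg z).1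
          nlinarith
      _ ≤ 4 := hi4
  obtain ⟨i, hik, hile⟩ : ∃ i ∈ Finset.range k, ∫ z in Q, g (Sh ((i + 1 : ℕ) * τ) z) ≤ β / 4 := by
    by_contra hcon
    push Not at hcon
    have hkne : (Finset.range k).Nonempty := by
      rw [Finset.nonempty_range_iff]
      rintro rfl
      simp at hk0
    have h1 := Finset.sum_lt_sum_of_nonempty hkne hcon
    rw [Finset.sum_const, Finset.card_range, nsmul_eq_mul] at h1
    have h2 : 16 ≤ k * β := by
      rw [div_le_iff₀ hβ] at hk; exact hk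
    linarith
  rw [Finset.mem_range] at hik
  -- comparison
  have hgs := intble_Sh ((i + 1 : ℕ) * τ) g hi
  have hdiff : β / 4 ≤ ∫ z in Q, (g z - g (Sh ((i + 1 : ℕ) * τ) z)) := by
    rw [integral_sub hi.integrableOn hgs.integrableOn]
    linarith
  have hsqi := intble_sq hm hg hi ((i + 1 : ℕ) * τ)
  set c : ℝ := β / (16 * r ^ 2) with hc
  have hc0 : 0 < c := by positivity
  have hcs : β / 4 ≤ (1 / (2 * c)) * (∫ z, (g z - g (Sh ((i + 1 : ℕ) * τ) z)) ^ 2) +
      c / 2 * (4 * r * r) := by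
    calc β / 4 ≤ ∫ z in Q, (g z - g (Sh ((i + 1 : ℕ) * τ) z)) := hdiff
      _ ≤ ∫ z in Q, ((1 / (2 * c)) * (g z - g (Sh ((i + 1 : ℕ) * τ) z)) ^ 2 + c / 2) := by
          apply setIntegral_mono_on (hi.sub hgs).integrableOn _ hQm
          · intro z _
            have h1 : 0 ≤ (1 / (2 * c)) * ((g z - g (Sh ((i + 1 : ℕ) * τ) z)) - c) ^ 2 := by
              positivity
            have h2 : (1 / (2 * c)) * ((g z - g (Sh ((i + 1 : ℕ) * τ) z)) - c) ^ 2 =
                (1 / (2 * c)) * (g z - g (Sh ((i + 1 : ℕ) * τ) z)) ^ 2 + c / 2 -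
                  (g z - g (Sh ((i + 1 : ℕ) * τ) z)) := by
              field_simp; ring
            show g z - g (Sh ((i + 1 : ℕ) * τ) z) ≤ _
            linarith
          · exact (hsqi.const_mul _).integrableOn.add
              (integrableOn_const (hs := hQlt.ne) (hC := by simp))
      _ = (1 / (2 * c)) * (∫ z in Q, (g z - g (Sh ((i + 1 : ℕ) * τ) z)) ^ 2) +
          c / 2 * volume.real Q := by
          rw [integral_add (hsqi.const_mul _).integrableOn
            (integrableOn_const (hs := hQlt.ne) (hC := by simp)), integral_const_mul]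
          simp [mul_comm]
      _ ≤ _ := by
          apply add_le_add
          · apply mul_le_mul_of_nonneg_left _ (by positivity)
            exact setIntegral_le_integral hsqi (ae_of_all _ fun z => sq_nonneg _)
          · apply mul_le_mul_of_nonneg_left hQreal (by positivity)
  have hlow : β ^ 2 / (64 * r ^ 2) ≤ ∫ z, (g z - g (Sh ((i + 1 : ℕ) * τ) z)) ^ 2 := by
    have h1 : c / 2 * (4 * r * r) = β / 8 := by rw [hc]; field_simp; ring
    rw [h1] at hcs
    have h2 : β / 8 ≤ (1 / (2 * c)) * ∫ z, (g z - g (Sh ((i + 1 : ℕ) * τ) z)) ^ 2 := by linarith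
    rw [one_div, inv_mul_eq_div, le_div_iff₀ (by positivity)] at h2
    have h3 : β / 8 * (2 * c) = β ^ 2 / (64 * r ^ 2) := by rw [hc]; field_simp; ring
    linarith
  have hI := I_mul hm hg hi (i + 1) τ
  have hnn : 0 ≤ ∫ z, (g z - g (Sh τ z)) ^ 2 := integral_nonneg fun z => sq_nonneg _
  have hik2 : (((i + 1 : ℕ) : ℝ)) ^ 2 ≤ (k : ℝ) ^ 2 := by
    apply pow_le_pow_left₀ (by positivity)
    exact_mod_cast hik
  rw [div_le_iff₀ (by positivity)]
  calc β ^ 2 / (64 * r ^ 2) ≤ _ := hlow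
    _ ≤ _ := hI
    _ ≤ (k : ℝ) ^ 2 * ∫ z, (g z - g (Sh τ z)) ^ 2 := mul_le_mul_of_nonneg_right hik2 hnn
    _ = _ := by ring

end

theorem t7 : T7 := by
  intro β R hβ hR
  obtain ⟨k, hk⟩ := exists_nat_ge (16 / β)
  set r : ℝ := √R with hr
  have hr0 : 0 < r := Real.sqrt_pos.2 hR
  have hr2 : r ^ 2 = R := Real.sq_sqrt hR.le
  set ρ : ℝ := β / (8 * r) with hρ
  have hρ0 : 0 < ρ := by positivity
  have hk0 : (0 : ℝ) < k := lt_of_lt_of_le (by positivity) hk
  refine ⟨β ^ 2 / (64 * r ^ 2) / (k : ℝ) ^ 2, 4 * r / ρ, by positivity, by positivity, ?_⟩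
  intro g hm hg h4 hmass t
  have hi : Integrable g := by
    refine ⟨hm.aestronglyMeasurable, ?_⟩
    rw [hasFiniteIntegral_iff_ofReal (ae_of_all _ fun z => (hg z).1)]
    exact lt_of_le_of_lt h4 ENNReal.ofReal_lt_top
  have hi4 : ∫ z, g z ≤ 4 := by
    rw [integral_eq_lintegral_of_nonneg_ae (ae_of_all _ fun z => (hg z).1) hm.aestronglyMeasurable]
    exact ENNReal.toReal_le_of_le_ofReal (by norm_num) h4
  have hmass' : β ≤ ∫ z in {z : ℝ × ℝ | z.1 ^ 2 + z.2 ^ 2 ≤ r ^ 2}, g z := by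
    rw [hr2]
    rw [← ofReal_integral_eq_lintegral_ofReal hi.integrableOn (ae_of_all _ fun z => (hg z).1)]
      at hmass
    have h0 : 0 ≤ ∫ z in {z : ℝ × ℝ | z.1 ^ 2 + z.2 ^ 2 ≤ R}, g z :=
      integral_nonneg fun z => (hg z).1
    exact (ENNReal.ofReal_le_ofReal_iff h0).1 hmass
  have hnn : ∀ s : ℝ, 0 ≤ ∫ z, (g z - g (Sh s z)) ^ 2 := fun s => integral_nonneg fun z => sq_nonneg _
  change _ ≤ ∫ z, (g z - g (Sh t z)) ^ 2
  set T : ℝ := 4 * r / ρ with hT
  have hT0 : 0 < T := by positivity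
  by_cases ht : t = 0
  · subst ht
    simp only [Pool.Agent.H508R3.AT.sq, abs_zero, zero_div, ne_eq, OfNat.ofNat_ne_zero, not_false_eq_true, zero_pow,
      mul_zero]
    exact hnn 0
  have ht0 : 0 < |t| := abs_pos.2 ht
  set m : ℕ := ⌈T / |t|⌉₊ with hmdef
  have hm1 : T / |t| ≤ m := Nat.le_ceil _
  have hm2 : (m : ℝ) < T / |t| + 1 := Nat.ceil_lt_add_one (by positivity)
  have hm0 : (0 : ℝ) < m := lt_of_lt_of_le (by positivity) hm1
  have hbig := big_shift hm hg hi hβ hr0 hρ k hk hi4 hmass' (τ := m * t) (by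
    rw [abs_mul, Nat.abs_cast, ← hT]
    rw [div_le_iff₀ ht0] at hm1
    exact hm1)
  have hI := I_mul hm hg hi m t
  have h1 : β ^ 2 / (64 * r ^ 2) / (k : ℝ) ^ 2 ≤ (m : ℝ) ^ 2 * ∫ z, (g z - g (Sh t z)) ^ 2 :=
    hbig.trans hI
  have h2 : (m : ℝ) * (|t| / (T + |t|)) ≤ 1 := by
    rw [← mul_div_assoc, div_le_one (by positivity)]
    have : (m : ℝ) * |t| < (T / |t| + 1) * |t| := by
      apply mul_lt_mul_of_pos_right hm2 ht0
    have e : (T / |t| + 1) * |t| = T + |t| := by field_simp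
    linarith
  have h3 : ((m : ℝ) * (|t| / (T + |t|))) ^ 2 ≤ 1 := by
    apply pow_le_one₀ (by positivity) h2
  calc β ^ 2 / (64 * r ^ 2) / (k : ℝ) ^ 2 * Pool.Agent.H508R3.AT.sq T t
      ≤ (m : ℝ) ^ 2 * (∫ z, (g z - g (Sh t z)) ^ 2) * Pool.Agent.H508R3.AT.sq T t := by
        apply mul_le_mul_of_nonneg_right h1
        unfold Pool.Agent.H508R3.AT.sq; positivity
    _ = ((m : ℝ) * (|t| / (T + |t|))) ^ 2 * ∫ z, (g z - g (Sh t z)) ^ 2 := by
        unfold Pool.Agent.H508R3.AT.sq; ring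
    _ ≤ 1 * ∫ z, (g z - g (Sh t z)) ^ 2 := mul_le_mul_of_nonneg_right h3 (hnn t)
    _ = _ := one_mul _

end Pool.Agent.H217R3.AT7
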