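import Pool.Agent.H217R3.Net

/-!
The frozen definition of a filling architecture (depth 4, d_0 = 2, d_4 = 1, r = 6) is equivalent to
the algebraic independence of the values at 217 points.
-/

open MvPolynomial Finset

namespace Pool.Agent.H217R3.Bridge

open Net

/-- the frozen filling property for `L = 4` and `r = 6` -/
def FillingR (e : Fin (4 + 1) → ℕ) : Prop :=
  ∀ P : MvPolynomial (ℕ × (ℕ →₀ ℕ)) ℂ,
      (∀ W : Fin 4 → ℕ → ℕ → ℂ,
        MvPolynomial.eval (fun p : ℕ × (ℕ →₀ ℕ) => MvPolynomial.coeff p.2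
          ((List.finRange 4).foldl
            (fun (h : ℕ → MvPolynomial ℕ ℂ) (k : Fin 4) (a : ℕ) =>
              ∑ b ∈ Finset.range (e k.castSucc),
                MvPolynomial.C (W k a b) * h b ^ (if (k : ℕ) = 0 then 1 else 6))
            (fun b : ℕ => (MvPolynomial.X b : MvPolynomial ℕ ℂ)) p.1)) P = 0) →
      ∀ c : ℕ × (ℕ →₀ ℕ) → ℂ,
        (∀ p : ℕ × (ℕ →₀ ℕ), c p ≠ 0 →
          p.1 < e (Fin.last 4) ∧ (∑ b ∈ p.2.support, p.2 b) = 6 ^ (4 - 1) ∧
            ∀ b ∈ p.2.support, b < e 0) →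
        MvPolynomial.eval c P = 0

/-- network output polynomial -/
noncomputable def out (e : ℕ → ℕ) (w : ℕ → ℕ → ℕ → ℂ) (a : ℕ) : MvPolynomial ℕ ℂ :=
  net e 6 (fun k a b => C (w k a b)) (fun b => X b) a

/-- widths as a function on naturals -/
def ext (e : Fin 5 → ℕ) (i : ℕ) : ℕ := if h : i < 5 then e ⟨i, h⟩ else 0

def wext (W : Fin 4 → ℕ → ℕ → ℂ) (k : ℕ) : ℕ → ℕ → ℂ :=
  if h : k < 4 then W ⟨k, h⟩ else 0

lemma foldl_eq (e : Fin 5 → ℕ) (W : Fin 4 → ℕ → ℕ → ℂ) (a : ℕ) :
    ((List.finRange 4).foldl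
            (fun (h : ℕ → MvPolynomial ℕ ℂ) (k : Fin 4) (a : ℕ) =>
              ∑ b ∈ Finset.range (e k.castSucc),
                MvPolynomial.C (W k a b) * h b ^ (if (k : ℕ) = 0 then 1 else 6))
            (fun b : ℕ => (MvPolynomial.X b : MvPolynomial ℕ ℂ)) a) =
      out (ext e) (wext W) a := by
  have h4 : List.finRange 4 = [0, 1, 2, 3] := by decide
  rw [h4]
  simp only [List.foldl_cons, List.foldl_nil, out, net, ext, wext]
  simp

/-- the monomial `x_0^(216-j) x_1^j` -/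
noncomputable def mm (j : ℕ) : ℕ →₀ ℕ := Finsupp.single 0 (216 - j) + Finsupp.single 1 j

lemma mm_one (j : ℕ) : mm j 1 = j := by simp [mm]
lemma mm_zero (j : ℕ) : mm j 0 = 216 - j := by simp [mm]

lemma mm_inj {i j : ℕ} (h : mm i = mm j) : i = j := by
  have := DFunLike.congr_fun h 1
  rwa [mm_one, mm_one] at this

lemma mm_of (m : ℕ →₀ ℕ) (h1 : (∑ b ∈ m.support, m b) = 216) (h2 : ∀ b ∈ m.support, b < 2) :
    ∃ j : Fin 217, m = mm j := by
  have hs : m.support ⊆ range 2 := fun b hb => mem_range.2 (h2 b hb)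
  have h3 : ∑ b ∈ range 2, m b = 216 := by
    rw [← h1]
    symm
    apply sum_subset hs
    intro x _ hx
    simpa using hx
  rw [sum_range_succ, sum_range_succ, sum_range_zero, zero_add] at h3
  refine ⟨⟨m 1, by omega⟩, ?_⟩
  ext b
  by_cases hb0 : b = 0
  · rw [hb0, mm_zero]; simp only; omega
  · by_cases hb1 : b = 1
    · rw [hb1, mm_one]
    · have : b ∉ m.support := fun h => by have := h2 b h; omega
      rw [Finsupp.notMem_support_iff.1 this]
      simp [mm, Ne.symm hb0, Ne.symm hb1]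

lemma out_homog (e : ℕ → ℕ) (w : ℕ → ℕ → ℕ → ℂ) (a : ℕ) : (out e w a).IsHomogeneous 216 := by
  unfold out net
  have hC : ∀ c : ℂ, (C c : MvPolynomial ℕ ℂ).IsHomogeneous 0 := fun c => isHomogeneous_C _ _
  have s0 : ∀ b1, (∑ b0 ∈ range (e 0), C (w 0 b1 b0) * (X b0 : MvPolynomial ℕ ℂ)).IsHomogeneous 1 :=
    fun b1 => IsHomogeneous.sum _ _ _ fun i _ => by
      simpa using (hC (w 0 b1 i)).mul (isHomogeneous_X ℂ i)
  have s1 : ∀ b2, (∑ b1 ∈ range (e 1), C (w 1 b2 b1) * (∑ b0 ∈ range (e 0), C (w 0 b1 b0) *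
      (X b0 : MvPolynomial ℕ ℂ)) ^ 6).IsHomogeneous 6 :=
    fun b2 => IsHomogeneous.sum _ _ _ fun i _ => by
      simpa using (hC (w 1 b2 i)).mul ((s0 i).pow 6)
  have s2 : ∀ b3, (∑ b2 ∈ range (e 2), C (w 2 b3 b2) * (∑ b1 ∈ range (e 1), C (w 1 b2 b1) *
      (∑ b0 ∈ range (e 0), C (w 0 b1 b0) * (X b0 : MvPolynomial ℕ ℂ)) ^ 6) ^ 6).IsHomogeneous 36 :=
    fun b3 => IsHomogeneous.sum _ _ _ fun i _ => by
      simpa using (hC (w 2 b3 i)).mul ((s1 i).pow 6)
  exact IsHomogeneous.sum _ _ _ fun i _ => by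
      simpa using (hC (w 3 a i)).mul ((s2 i).pow 6)

lemma out_vars (e : ℕ → ℕ) (he : e 0 = 2) (w : ℕ → ℕ → ℕ → ℂ) (a : ℕ) :
    out e w a ∈ supported ℂ ({0, 1} : Set ℕ) := by
  unfold out net
  have hC : ∀ c : ℂ, (C c : MvPolynomial ℕ ℂ) ∈ supported ℂ ({0, 1} : Set ℕ) :=
    fun c => Subalgebra.algebraMap_mem _ c
  refine sum_mem fun b3 _ => mul_mem (hC _) (pow_mem (sum_mem fun b2 _ => mul_mem (hC _)
    (pow_mem (sum_mem fun b1 _ => mul_mem (hC _) (pow_mem (sum_mem fun b0 hb0 =>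
      mul_mem (hC _) ?_) _)) _)) _)
  rw [he, mem_range] at hb0
  have : b0 ∈ ({0, 1} : Set ℕ) := by
    simp only [Set.mem_insert_iff, Set.mem_singleton_iff]
    omega
  exact X_mem_supported.2 this

lemma out_coeff (e : ℕ → ℕ) (he : e 0 = 2) (w : ℕ → ℕ → ℕ → ℂ) (a : ℕ) (m : ℕ →₀ ℕ)
    (hm : coeff m (out e w a) ≠ 0) : ∃ j : Fin 217, m = mm j := by
  apply mm_of
  · have := out_homog e w a hm
    rw [← this]
    rw [Finsupp.weight_apply, Finsupp.sum]
    simp
  · intro b hb
    have h1 := out_vars e he w a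
    rw [mem_supported] at h1
    have h2 : b ∈ (out e w a).vars := by
      rw [mem_vars_iff_mem_support]
      exact ⟨m, mem_support_iff.2 hm, hb⟩
    have h3 := h1 h2
    simp only [Set.mem_insert_iff, Set.mem_singleton_iff] at h3
    omega

lemma out_sum (e : ℕ → ℕ) (he : e 0 = 2) (w : ℕ → ℕ → ℕ → ℂ) (a : ℕ) :
    out e w a = ∑ j : Fin 217, monomial (mm j) (coeff (mm j) (out e w a)) := by
  ext m
  rw [coeff_sum]
  simp only [coeff_monomial]
  by_cases hm : ∃ j : Fin 217, m = mm j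
  · obtain ⟨j, rfl⟩ := hm
    rw [Finset.sum_eq_single j]
    · simp
    · intro b _ hb
      rw [if_neg]
      intro h
      exact hb (Fin.ext (mm_inj h))
    · simp
  · rw [Finset.sum_eq_zero]
    · by_contra h
      exact hm (out_coeff e he w a m h)
    · intro j _
      rw [if_neg]
      intro h
      exact hm ⟨j, h.symm⟩

lemma out_eval (e : ℕ → ℕ) (he : e 0 = 2) (w : ℕ → ℕ → ℕ → ℂ) (a : ℕ) (s : ℕ) :
    net e 6 w (pt s) a = ∑ j : Fin 217, (s : ℂ) ^ (j : ℕ) * coeff (mm j) (out e w a) := by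
  have h1 : eval (pt s) (out e w a) = net e 6 w (pt s) a := by
    unfold out
    rw [map_net]
    simp
  rw [← h1]
  conv_lhs => rw [out_sum e he w a]
  rw [map_sum]
  refine sum_congr rfl fun j _ => ?_
  rw [eval_monomial, mul_comm]
  congr 1
  rw [mm, Finsupp.prod_add_index' (by simp) (by intros; rw [pow_add]), Finsupp.prod_single_index
    (by simp), Finsupp.prod_single_index (by simp)]
  simp [pt]

/-- Vandermonde matrix of the sample points -/
noncomputable def V : Matrix (Fin 217) (Fin 217) ℂ := Matrix.vandermonde fun s => ((s : ℕ) : ℂ)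

lemma V_det : V.det ≠ 0 := by
  unfold V
  rw [Matrix.det_vandermonde_ne_zero_iff]
  intro a b hab
  have : ((a : ℕ) : ℂ) = ((b : ℕ) : ℂ) := hab
  exact Fin.ext (by exact_mod_cast this)

lemma V_unit : IsUnit V.det := isUnit_iff_ne_zero.2 V_det

lemma V_mulVec (y : Fin 217 → ℂ) (s : Fin 217) :
    V.mulVec y s = ∑ j : Fin 217, ((s : ℕ) : ℂ) ^ (j : ℕ) * y j := by
  simp [V, Matrix.mulVec, dotProduct, Matrix.vandermonde_apply]

/-- the coefficient vector with given coefficients of the first output -/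
noncomputable def cOf {S : Type*} [CommSemiring S] (y : Fin 217 → S) (p : ℕ × (ℕ →₀ ℕ)) : S :=
  open Classical in if p.1 = 0 then ∑ j : Fin 217, (if p.2 = mm j then y j else 0) else 0

lemma cOf_mm {S : Type*} [CommSemiring S] (y : Fin 217 → S) (j : Fin 217) :
    cOf y (0, mm j) = y j := by
  classical
  unfold cOf
  rw [if_pos rfl, Finset.sum_eq_single j]
  · simp
  · intro b _ hb
    rw [if_neg]
    intro h
    exact hb (Fin.ext (mm_inj h)).symm
  · simp

lemma cOf_ne {S : Type*} [CommSemiring S] (y : Fin 217 → S) (p : ℕ × (ℕ →₀ ℕ))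
    (hp : ¬ (p.1 = 0 ∧ ∃ j : Fin 217, p.2 = mm j)) : cOf y p = 0 := by
  classical
  unfold cOf
  split_ifs with h0
  · refine Finset.sum_eq_zero fun j _ => ?_
    rw [if_neg]
    intro h
    exact hp ⟨h0, j, h⟩
  · rfl

lemma degree_mm (j : Fin 217) : (∑ b ∈ (mm j).support, (mm j) b) = 216 := by
  have hs : (mm j).support ⊆ range 2 := by
    intro b hb
    by_contra h
    rw [mem_range, not_lt] at h
    rw [Finsupp.mem_support_iff] at hb
    apply hb
    have h0 : b ≠ 0 := by omega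
    have h1 : b ≠ 1 := by omega
    simp [mm, h0.symm, h1.symm]
  rw [sum_subset hs (by intro x _ hx; simpa using hx), sum_range_succ, sum_range_succ,
    sum_range_zero, mm_one, mm_zero]
  have := j.2
  omega

lemma mm_support (j : ℕ) (b : ℕ) (hb : b ∈ (mm j).support) : b < 2 := by
  by_contra h
  rw [not_lt] at h
  rw [Finsupp.mem_support_iff] at hb
  apply hb
  have h0 : b ≠ 0 := by omega
  have h1 : b ≠ 1 := by omega
  simp [mm, h0.symm, h1.symm]

theorem denseVal_of_filling (e : Fin 5 → ℕ) (he0 : e 0 = 2) (he4 : e 4 = 1)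
    (h : FillingR e) : DenseVal (ext e) := by
  intro Q hQ
  have hext0 : ext e 0 = 2 := by simpa [ext] using he0
  have hP := h (aeval (fun s : Fin 217 => ∑ j : Fin 217,
    C (((s : ℕ) : ℂ) ^ (j : ℕ)) * X (0, mm j)) Q) ?_
  · apply MvPolynomial.funext
    intro b
    rw [map_zero]
    have h1 := hP (cOf (V⁻¹.mulVec b)) ?_
    · rw [← h1, ← MvPolynomial.coe_aeval_eq_eval, ← MvPolynomial.coe_aeval_eq_eval]
      have h7 := congrArg (fun f => f Q) (MvPolynomial.comp_aeval (fun s : Fin 217 =>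
        ∑ j : Fin 217, C (((s : ℕ) : ℂ) ^ (j : ℕ)) * (X (0, mm j) : MvPolynomial (ℕ × (ℕ →₀ ℕ)) ℂ))
          (aeval (R := ℂ) (cOf (V⁻¹.mulVec b))))
      simp only [AlgHom.coe_comp, Function.comp_apply] at h7
      rw [RingHom.coe_coe, RingHom.coe_coe, h7]
      congr 2
      funext s
      rw [map_sum]
      simp only [map_mul, aeval_X, cOf_mm, aeval_C, Algebra.algebraMap_self, RingHom.id_apply]
      rw [← V_mulVec, Matrix.mulVec_mulVec, Matrix.mul_nonsing_inv _ V_unit, Matrix.one_mulVec]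
    · intro p hp
      by_cases hp' : p.1 = 0 ∧ ∃ j : Fin 217, p.2 = mm j
      · obtain ⟨h0, j, hj⟩ := hp'
        refine ⟨?_, ?_, ?_⟩
        · rw [h0]
          have : e (Fin.last 4) = 1 := he4
          rw [this]; norm_num
        · rw [hj, degree_mm]; norm_num
        · rw [hj, he0]
          exact mm_support j
      · exact absurd (cOf_ne _ p hp') hp
  · intro W
    rw [← MvPolynomial.coe_aeval_eq_eval]
    have h7 := congrArg (fun f => f Q) (MvPolynomial.comp_aeval (fun s : Fin 217 =>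
        ∑ j : Fin 217, C (((s : ℕ) : ℂ) ^ (j : ℕ)) * (X (0, mm j) : MvPolynomial (ℕ × (ℕ →₀ ℕ)) ℂ))
          (aeval (R := ℂ) (fun p : ℕ × (ℕ →₀ ℕ) => MvPolynomial.coeff p.2
          ((List.finRange 4).foldl
            (fun (h : ℕ → MvPolynomial ℕ ℂ) (k : Fin 4) (a : ℕ) =>
              ∑ b ∈ Finset.range (e k.castSucc),
                MvPolynomial.C (W k a b) * h b ^ (if (k : ℕ) = 0 then 1 else 6))
            (fun b : ℕ => (MvPolynomial.X b : MvPolynomial ℕ ℂ)) p.1))))
    simp only [AlgHom.coe_comp, Function.comp_apply] at h7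
    rw [RingHom.coe_coe, h7]
    have h8 := hQ (wext W)
    rw [← MvPolynomial.coe_aeval_eq_eval] at h8
    rw [RingHom.coe_coe] at h8
    rw [← h8]
    congr 2
    funext s
    rw [map_sum, out_eval (ext e) hext0]
    simp only [map_mul, aeval_X, aeval_C, Algebra.algebraMap_self, RingHom.id_apply, foldl_eq]

theorem filling_of_denseVal (e : Fin 5 → ℕ) (he0 : e 0 = 2) (he4 : e 4 = 1)
    (h : DenseVal (ext e)) : FillingR e := by
  intro P hP c hc
  have hext0 : ext e 0 = 2 := by simpa [ext] using he0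
  have hc' : c = cOf fun j : Fin 217 => c (0, mm j) := by
    funext p
    by_cases hp' : p.1 = 0 ∧ ∃ j : Fin 217, p.2 = mm j
    · obtain ⟨h0, j, hj⟩ := hp'
      obtain ⟨p1, p2⟩ := p
      simp only at h0 hj
      rw [h0, hj, cOf_mm]
    · rw [cOf_ne _ p hp']
      by_contra hne
      obtain ⟨h1, h2, h3⟩ := hc p hne
      apply hp'
      have h4 : e (Fin.last 4) = 1 := he4
      rw [h4] at h1
      rw [he0] at h3
      refine ⟨by omega, mm_of p.2 (by rw [h2]; norm_num) h3⟩
  -- the polynomial in the values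
  set Q : MvPolynomial (Fin 217) ℂ := aeval (fun p : ℕ × (ℕ →₀ ℕ) =>
    cOf (fun j => ∑ s : Fin 217, C (V⁻¹ j s) * (X s : MvPolynomial (Fin 217) ℂ)) p) P with hQdef
  have hQeval : ∀ b : Fin 217 → ℂ, eval b Q = eval (cOf (V⁻¹.mulVec b)) P := by
    intro b
    rw [hQdef, ← MvPolynomial.coe_aeval_eq_eval, ← MvPolynomial.coe_aeval_eq_eval]
    have h7 := congrArg (fun f => f P) (MvPolynomial.comp_aeval (fun p : ℕ × (ℕ →₀ ℕ) =>
      cOf (fun j => ∑ s : Fin 217, C (V⁻¹ j s) * (X s : MvPolynomial (Fin 217) ℂ)) p)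
          (aeval (R := ℂ) b))
    simp only [AlgHom.coe_comp, Function.comp_apply] at h7
    rw [RingHom.coe_coe, RingHom.coe_coe, h7]
    congr 2
    funext p
    by_cases hp' : p.1 = 0 ∧ ∃ j : Fin 217, p.2 = mm j
    · obtain ⟨h0, j, hj⟩ := hp'
      obtain ⟨p1, p2⟩ := p
      simp only at h0 hj
      rw [h0, hj, cOf_mm, cOf_mm, map_sum]
      simp [Matrix.mulVec, dotProduct]
    · rw [cOf_ne _ p hp', cOf_ne _ p hp', map_zero]
  have hQ0 : Q = 0 := by
    apply h
    intro w
    rw [hQeval]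
    -- modify the last layer
    let W : Fin 4 → ℕ → ℕ → ℂ := fun k a b => if (k : ℕ) = 3 ∧ a ≠ 0 then 0 else w k a b
    have h1 := hP W
    have h2 : (fun p : ℕ × (ℕ →₀ ℕ) => MvPolynomial.coeff p.2
          ((List.finRange 4).foldl
            (fun (h : ℕ → MvPolynomial ℕ ℂ) (k : Fin 4) (a : ℕ) =>
              ∑ b ∈ Finset.range (e k.castSucc),
                MvPolynomial.C (W k a b) * h b ^ (if (k : ℕ) = 0 then 1 else 6))
            (fun b : ℕ => (MvPolynomial.X b : MvPolynomial ℕ ℂ)) p.1)) =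
        cOf (V⁻¹.mulVec fun s : Fin 217 => net (ext e) 6 w (pt (s : ℕ)) 0) := by
      funext p
      rw [foldl_eq]
      have hout : out (ext e) (wext W) 0 = out (ext e) w 0 := by
        unfold out
        apply net_congr
        · intro b _; simp [wext, W]
        · intro c _ b _; simp [wext, W]
        · intro c _ b _; simp [wext, W]
        · intro c _ b _; simp [wext, W]
      by_cases hp' : p.1 = 0 ∧ ∃ j : Fin 217, p.2 = mm j
      · obtain ⟨h0, j, hj⟩ := hp'
        obtain ⟨p1, p2⟩ := p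
        simp only at h0 hj
        rw [h0, hj, cOf_mm]
        simp only [hout]
        have h3 : (fun s : Fin 217 => net (ext e) 6 w (pt (s : ℕ)) 0) =
            V.mulVec fun j : Fin 217 => coeff (mm j) (out (ext e) w 0) := by
          funext s
          rw [V_mulVec, out_eval (ext e) hext0]
        rw [h3, Matrix.mulVec_mulVec, Matrix.nonsing_inv_mul _ V_unit, Matrix.one_mulVec]
      · rw [cOf_ne _ p hp']
        by_contra hne
        by_cases h0 : p.1 = 0
        · rw [h0] at hne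
          exact hp' ⟨h0, out_coeff _ hext0 _ _ _ hne⟩
        · apply hne
          have : out (ext e) (wext W) p.1 = 0 := by
            unfold out net
            refine sum_eq_zero fun b _ => ?_
            simp [wext, W, h0]
          rw [this, coeff_zero]
    rw [h2] at h1
    exact h1
  rw [hc']
  have h5 := hQeval (V.mulVec fun j => c (0, mm j))
  rw [hQ0, map_zero, Matrix.mulVec_mulVec, Matrix.nonsing_inv_mul _ V_unit,
    Matrix.one_mulVec] at h5
  exact h5.symm

end Pool.Agent.H217R3.Bridge
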