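import Pool.Agent.H217R3.Num

namespace Pool.Agent.H217R3.Num

theorem check_true : check = true := by decide +kernel

end Pool.Agent.H217R3.Num
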