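import Pool.Agent.H217R3.Net
import Pool.Agent.H217R3.NumCheck

/-!
The network with widths (2,6,5,38,1) and activation x^6 is filling.
-/

open MvPolynomial Finset

namespace Pool.Agent.H217R3.Dense

open Net Pool.Agent.H217R3.Num Elim

/-- the widths -/
def ed (i : ℕ) : ℕ :=
  match i with
  | 0 => 2
  | 1 => 6
  | 2 => 5
  | 3 => 38
  | _ => 1

abbrev R := MvPolynomial (ℕ × ℕ × ℕ) ℂ

noncomputable def H1 (s j : ℕ) : R := ∑ b ∈ range 2, X (0, j, b) * pt s b
noncomputable def H2 (s i : ℕ) : R := ∑ j ∈ range 6, X (1, i, j) * H1 s j ^ 6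
noncomputable def H3 (s a : ℕ) : R := ∑ i ∈ range 5, X (2, a, i) * H2 s i ^ 6
noncomputable def H4 (s : ℕ) : R := ∑ a ∈ range 38, X (3, 0, a) * H3 s a ^ 6

lemma H4_eq (s : ℕ) : net ed 6 (fun k a b => (X (k, a, b) : R)) (pt s) 0 = H4 s := rfl

noncomputable def ev : R →+* ℂ := eval fun t : ℕ × ℕ × ℕ => (wt t.1 t.2.1 t.2.2 : ℂ)

lemma ev_X (k a b : ℕ) : ev (X (k, a, b)) = (wt k a b : ℂ) := by simp [ev]

lemma ev_H1 (s j : ℕ) : ev (H1 s j) = (h1 s j : ℂ) := by
  unfold H1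
  rw [sum_range_succ, sum_range_succ, sum_range_zero, zero_add, map_add, map_mul, map_mul, ev_X,
    ev_X]
  simp [pt, wt, h1]

lemma ev_H2 (s i : ℕ) : ev (H2 s i) = (h2 s i : ℂ) := by
  simp only [H2, map_sum, map_mul, map_pow, ev_X, ev_H1, h2, wt]
  push_cast
  rfl

lemma ev_H3 (s a : ℕ) : ev (H3 s a) = (h3 s a : ℂ) := by
  simp only [H3, map_sum, map_mul, map_pow, ev_X, ev_H2, h3, wt]
  push_cast
  rfl

lemma pderiv_pt (v : ℕ × ℕ × ℕ) (s b : ℕ) : pderiv v (pt s b : R) = 0 := by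
  unfold pt
  split_ifs
  · exact pderiv_one
  · rw [← map_natCast (C : ℂ →+* R)]
    exact pderiv_C

lemma pderiv_X' (k a b k' a' b' : ℕ) : pderiv (k, a, b) (X (k', a', b') : R) =
    if (k', a', b') = (k, a, b) then 1 else 0 := by
  rw [pderiv_X]
  rw [Pi.single_apply]

lemma dpow (v : ℕ × ℕ × ℕ) (f : R) : pderiv v (f ^ 6) = 6 * f ^ 5 * pderiv v f := by
  rw [pderiv_pow]; norm_num

/-- derivative of `H1` -/
lemma dH1 (j : ℕ) (s j' : ℕ) : pderiv (0, j, 1) (H1 s j') = if j' = j then (s : R) else 0 := by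
  unfold H1
  rw [map_sum, sum_range_succ, sum_range_succ, sum_range_zero]
  simp only [pderiv_mul, pderiv_pt, pderiv_X', mul_zero, add_zero, zero_add]
  by_cases h : j' = j
  · simp [h, pt]
  · simp [h]

lemma dH1' (k a b : ℕ) (hk : k ≠ 0) (s j' : ℕ) : pderiv (k, a, b) (H1 s j') = 0 := by
  unfold H1
  rw [map_sum]
  refine sum_eq_zero fun i _ => ?_
  rw [pderiv_mul, pderiv_pt, pderiv_X', if_neg]
  · simp
  · intro h
    exact hk (congrArg Prod.fst h).symm

lemma dH2_0 (j : ℕ) (hj : j < 6) (s i : ℕ) : pderiv (0, j, 1) (H2 s i) =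
    X (1, i, j) * (6 * H1 s j ^ 5 * (s : R)) := by
  unfold H2
  rw [map_sum]
  have : ∀ x ∈ range 6, pderiv (0, j, 1) (X (1, i, x) * H1 s x ^ 6) =
      if x = j then X (1, i, x) * (6 * H1 s x ^ 5 * (s : R)) else 0 := by
    intro x _
    rw [pderiv_mul, dpow, dH1, pderiv_X', if_neg (by simp)]
    by_cases h : x = j
    · simp [h]
    · simp [h]
  rw [sum_congr rfl this, sum_ite_eq' (range 6) j]
  simp [hj]

lemma dH2_1 (i j : ℕ) (hj : j < 6) (s i' : ℕ) : pderiv (1, i, j) (H2 s i') =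
    if i' = i then H1 s j ^ 6 else 0 := by
  unfold H2
  rw [map_sum]
  have : ∀ x ∈ range 6, pderiv (1, i, j) (X (1, i', x) * H1 s x ^ 6) =
      if x = j then (if i' = i then H1 s x ^ 6 else 0) else 0 := by
    intro x _
    rw [pderiv_mul, dpow, dH1' _ _ _ one_ne_zero, pderiv_X']
    by_cases h : x = j <;> by_cases h' : i' = i <;> simp [h, h']
  rw [sum_congr rfl this, sum_ite_eq' (range 6) j]
  simp [hj]

lemma dH2_2 (a i : ℕ) (s i' : ℕ) : pderiv (2, a, i) (H2 s i') = 0 := by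
  unfold H2
  rw [map_sum]
  refine sum_eq_zero fun x _ => ?_
  rw [pderiv_mul, dpow, dH1' _ _ _ two_ne_zero, pderiv_X', if_neg (by simp)]
  simp

lemma dH3_0 (j : ℕ) (hj : j < 6) (s a : ℕ) : pderiv (0, j, 1) (H3 s a) =
    ∑ i ∈ range 5, X (2, a, i) * (6 * H2 s i ^ 5 * (X (1, i, j) * (6 * H1 s j ^ 5 * (s : R)))) := by
  unfold H3
  rw [map_sum]
  refine sum_congr rfl fun x _ => ?_
  rw [pderiv_mul, dpow, dH2_0 j hj, pderiv_X', if_neg (by simp)]
  simp

lemma dH3_1 (i j : ℕ) (hi : i < 5) (hj : j < 6) (s a : ℕ) : pderiv (1, i, j) (H3 s a) =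
    X (2, a, i) * (6 * H2 s i ^ 5 * H1 s j ^ 6) := by
  unfold H3
  rw [map_sum]
  have : ∀ x ∈ range 5, pderiv (1, i, j) (X (2, a, x) * H2 s x ^ 6) =
      if x = i then X (2, a, x) * (6 * H2 s x ^ 5 * H1 s j ^ 6) else 0 := by
    intro x _
    rw [pderiv_mul, dpow, dH2_1 i j hj, pderiv_X', if_neg (by simp)]
    by_cases h : x = i <;> simp [h]
  rw [sum_congr rfl this, sum_ite_eq' (range 5) i]
  simp [hi]

lemma dH3_2 (a i : ℕ) (hi : i < 5) (s a' : ℕ) : pderiv (2, a, i) (H3 s a') =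
    if a' = a then H2 s i ^ 6 else 0 := by
  unfold H3
  rw [map_sum]
  have : ∀ x ∈ range 5, pderiv (2, a, i) (X (2, a', x) * H2 s x ^ 6) =
      if x = i then (if a' = a then H2 s x ^ 6 else 0) else 0 := by
    intro x _
    rw [pderiv_mul, dpow, dH2_2, pderiv_X']
    by_cases h : x = i <;> by_cases h' : a' = a <;> simp [h, h']
  rw [sum_congr rfl this, sum_ite_eq' (range 5) i]
  simp [hi]

lemma ev_dH4 (v : ℕ × ℕ × ℕ) (hv : v ∈ vL) (s : ℕ) : ev (pderiv v (H4 s)) = (entry s v : ℂ) := by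
  have key : ev (pderiv v (H4 s)) = ∑ a ∈ range 38, 6 * (h3 s a : ℂ) ^ 5 *
      ev (pderiv v (H3 s a)) := by
    unfold H4
    rw [map_sum, map_sum]
    refine sum_congr rfl fun x _ => ?_
    rw [pderiv_mul, dpow]
    have h3v : v.1 ≠ 3 := by
      simp only [vL, List.mem_append, List.mem_flatMap, List.mem_map, List.mem_range] at hv
      rcases hv with ⟨_, _, _, _, rfl⟩ | ⟨_, _, _, _, rfl⟩ | ⟨_, _, rfl⟩ <;> simp
    obtain ⟨k, a, b⟩ := v
    rw [pderiv_X', if_neg (by intro h; exact h3v (congrArg Prod.fst h).symm)]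
    simp only [map_mul, map_pow, map_add, map_zero, map_ofNat, ev_X, ev_H3, wt]
    simp
  rw [key]
  simp only [vL, List.mem_append, List.mem_flatMap, List.mem_map, List.mem_range] at hv
  rcases hv with ⟨a, ha, i, hi, rfl⟩ | ⟨i, hi, j, hj, rfl⟩ | ⟨j, hj, rfl⟩
  · have : ∀ x ∈ range 38, 6 * (h3 s x : ℂ) ^ 5 * ev (pderiv (2, a, i) (H3 s x)) =
        if x = a then 6 * (h3 s x : ℂ) ^ 5 * (h2 s i : ℂ) ^ 6 else 0 := by
      intro x _
      rw [dH3_2 a i hi]
      by_cases h : x = a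
      · simp [h, ev_H2]
      · simp [h]
    rw [sum_congr rfl this, sum_ite_eq' (range 38) a]
    simp [ha, entry]
  · have : ∀ x ∈ range 38, 6 * (h3 s x : ℂ) ^ 5 * ev (pderiv (1, i, j) (H3 s x)) =
        (Cc x i : ℂ) * (6 * (h3 s x : ℂ) ^ 5) * ((6 * (h2 s i : ℂ) ^ 5) * (h1 s j : ℂ) ^ 6) := by
      intro x _
      rw [dH3_1 i j hi (by omega)]
      simp only [map_mul, map_pow, ev_X, ev_H1, ev_H2, wt, map_ofNat]
      ring
    rw [sum_congr rfl this, ← sum_mul]
    simp only [entry, G', if_true, if_false, OfNat.one_ne_ofNat]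
    push_cast
    ring
  · have : ∀ x ∈ range 38, 6 * (h3 s x : ℂ) ^ 5 * ev (pderiv (0, j, 1) (H3 s x)) =
        ∑ i ∈ range 5, (U i j : ℂ) * ((Cc x i : ℂ) * (6 * (h3 s x : ℂ) ^ 5) *
          (6 * (h2 s i : ℂ) ^ 5)) * ((6 * (h1 s j : ℂ) ^ 5) * s) := by
      intro x _
      rw [dH3_0 j (by omega), map_sum, mul_sum]
      refine sum_congr rfl fun i _ => ?_
      simp only [map_mul, map_pow, ev_X, ev_H1, ev_H2, wt, map_ofNat, map_natCast]
      ring
    rw [sum_congr rfl this, sum_comm]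
    simp only [entry, G', OfNat.zero_ne_ofNat, zero_ne_one, if_false]
    push_cast
    rw [sum_mul, sum_mul]
    refine sum_congr rfl fun i _ => ?_
    rw [← sum_mul]
    have : ∑ x ∈ range 38, (U i j : ℂ) * ((Cc x i : ℂ) * (6 * (h3 s x : ℂ) ^ 5) *
          (6 * (h2 s i : ℂ) ^ 5)) = (U i j : ℂ) * ((∑ x ∈ range 38,
          (Cc x i : ℂ) * (6 * (h3 s x : ℂ) ^ 5)) * (6 * (h2 s i : ℂ) ^ 5)) := by
      rw [sum_mul, mul_sum]
    rw [this]
    ring

lemma length_vL : vL.length = 217 := by decide +kernel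

def v (n : Fin 217) : ℕ × ℕ × ℕ := vL[(n : ℕ)]'(by rw [length_vL]; exact n.2)

lemma v_mem (n : Fin 217) : v n ∈ vL := by
  unfold v
  exact List.getElem_mem _

instance : Fact (Nat.Prime P) := ⟨by unfold P; norm_num⟩

lemma hcheck : elim BB (2 ^ BB - 1) P 217
    (((List.range 217).map fun s => vL.map fun v => entry s v % P).map (enc BB)) = true := by
  have hc := check_true
  unfold check at hc
  rw [force_eq, mapF_eq] at hc
  have hrows := rows_eq BB P 217 (fun s k => rowK s k) vL entry (fun s k => rowK_eq s k)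
  exact (congrArg (fun L => elim BB (2 ^ BB - 1) P 217 L) hrows.symm).trans hc

lemma detP : (Matrix.of fun (n s : Fin 217) => ((entry (s : ℕ) (v n) : ℕ) : ZMod P)).det ≠ 0 :=
  det_ne_zero_of_elim P BB 217 vL length_vL entry (by unfold P BB; decide +kernel) hcheck

lemma detC : (Matrix.of fun (n s : Fin 217) => ((entry (s : ℕ) (v n) : ℕ) : ℂ)).det ≠ 0 := by
  intro h0
  have h1 : (Matrix.of fun (n s : Fin 217) => ((entry (s : ℕ) (v n) : ℕ) : ℤ)).det = 0 := by
    have h2 := (Int.castRingHom ℂ).map_det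
      (Matrix.of fun (n s : Fin 217) => ((entry (s : ℕ) (v n) : ℕ) : ℤ))
    have h3 : (Int.castRingHom ℂ).mapMatrix
        (Matrix.of fun (n s : Fin 217) => ((entry (s : ℕ) (v n) : ℕ) : ℤ)) =
        Matrix.of fun (n s : Fin 217) => ((entry (s : ℕ) (v n) : ℕ) : ℂ) := by
      ext n s
      simp
    rw [h3, h0] at h2
    have : ((Matrix.of fun (n s : Fin 217) => ((entry (s : ℕ) (v n) : ℕ) : ℤ)).det : ℂ) = 0 := h2
    exact_mod_cast this
  apply detP
  have h2 := (Int.castRingHom (ZMod P)).map_det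
      (Matrix.of fun (n s : Fin 217) => ((entry (s : ℕ) (v n) : ℕ) : ℤ))
  have h3 : (Int.castRingHom (ZMod P)).mapMatrix
        (Matrix.of fun (n s : Fin 217) => ((entry (s : ℕ) (v n) : ℕ) : ℤ)) =
        Matrix.of fun (n s : Fin 217) => ((entry (s : ℕ) (v n) : ℕ) : ZMod P) := by
    ext n s
    simp
  rw [h3, h1, map_zero] at h2
  exact h2.symm

lemma det_ne_zero_of_ev {n : ℕ} (M : Matrix (Fin n) (Fin n) R) (E : Matrix (Fin n) (Fin n) ℂ)
    (h : ∀ i j, ev (M i j) = E i j) (hE : E.det ≠ 0) : M.det ≠ 0 := by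
  intro h0
  apply hE
  have : E = ev.mapMatrix M := by
    ext i j
    rw [RingHom.mapMatrix_apply, Matrix.map_apply, h]
  rw [this, ← RingHom.map_det, h0, map_zero]

theorem denseVal : DenseVal ed := by
  intro Q hQ
  have hdet : (Matrix.of fun (n s : Fin 217) => pderiv (v n) (H4 (s : ℕ))).det ≠ 0 :=
    det_ne_zero_of_ev _ _ (fun n s => ev_dH4 (v n) (v_mem n) (s : ℕ)) detC
  apply Jac.aeval_injective_of_det (fun s : Fin 217 => H4 (s : ℕ)) v hdet
  apply MvPolynomial.funext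
  intro w
  rw [map_zero]
  have h6 : ∀ s : Fin 217, eval w (H4 (s : ℕ)) =
      net ed 6 (fun k a b => w (k, a, b)) (pt (s : ℕ)) 0 := by
    intro s
    rw [← H4_eq, map_net]
    congr 1
    · funext k a b
      simp
    · funext b
      unfold pt
      split_ifs <;> simp
  have h5 := hQ (fun k a b => w (k, a, b))
  simp only [← h6] at h5
  rw [← h5]
  rw [← MvPolynomial.coe_aeval_eq_eval, ← MvPolynomial.coe_aeval_eq_eval]
  have h7 := congrArg (fun f => f Q) (MvPolynomial.comp_aeval (fun s : Fin 217 => H4 (s : ℕ))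
      (aeval (R := ℂ) w))
  simp only [AlgHom.coe_comp, Function.comp_apply] at h7
  exact h7

end Pool.Agent.H217R3.Dense
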