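import Mathlib

/-!
A kernel-friendly packed Gaussian elimination certificate for non-singularity modulo a prime.
-/

namespace Pool.Agent.H217R3.Elim

def force {α : Type} (x : ℕ) (f : ℕ → α) : α :=
  match x with
  | 0 => f 0
  | k + 1 => f (k + 1)

lemma force_eq {α : Type} (x : ℕ) (f : ℕ → α) : force x f = f x := by
  cases x <;> rfl

def mapF {α β : Type} (f : β → ℕ) : List β → (List ℕ → α) → α
  | [], k => k []
  | x :: xs, k => force (f x) fun y => mapF f xs fun ys => k (y :: ys)

lemma mapF_eq {α β : Type} (f : β → ℕ) (l : List β) (k : List ℕ → α) :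
    mapF f l k = k (l.map f) := by
  induction l generalizing k with
  | nil => rfl
  | cons x xs ih => simp only [mapF, force_eq, ih, List.map_cons]

/-- packing of a list of digits in base `2 ^ b` -/
def enc (b : ℕ) : List ℕ → ℕ
  | [] => 0
  | d :: l => d + enc b l * 2 ^ b

/-- packed elimination; rows are packed in base `2^b`, `mask = 2^b-1` -/
def elim (b mask p : ℕ) : ℕ → List ℕ → Bool
  | 0, _ => true
  | _ + 1, [] => false
  | n + 1, R :: Rs =>
    force (Nat.land R mask % p) fun a =>
      match a with
      | 0 => false
      | a' + 1 =>
        force (Nat.shiftRight R b) fun Rt =>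
          mapF (fun R' => (a' + 1) * (Nat.shiftRight R' b) + (p - Nat.land R' mask % p) * Rt) Rs
            (fun Rs' => elim b mask p n Rs')

/-- dot product of a list of naturals with a vector modulo `p` -/
def dotp {p : ℕ} : List ℕ → (ℕ → ZMod p) → ZMod p
  | [], _ => 0
  | d :: l, x => (d : ZMod p) * x 0 + dotp l (fun i => x (i + 1))

def comb (a c : ℕ) : List ℕ → List ℕ → List ℕ
  | x :: xs, y :: ys => (a * x + c * y) :: comb a c xs ys
  | _, _ => []

lemma enc_comb (b a c : ℕ) (l l' : List ℕ) (h : l.length = l'.length) :
    enc b (comb a c l l') = a * enc b l + c * enc b l' := by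
  induction l generalizing l' with
  | nil => cases l' with
    | nil => simp [comb, enc]
    | cons _ _ => simp at h
  | cons x xs ih => cases l' with
    | nil => simp at h
    | cons y ys =>
      simp only [comb, enc]
      rw [ih ys (by simpa using h)]
      ring

lemma length_comb (a c : ℕ) (l l' : List ℕ) (h : l.length = l'.length) :
    (comb a c l l').length = l.length := by
  induction l generalizing l' with
  | nil => rfl
  | cons x xs ih => cases l' with
    | nil => simp at h
    | cons y ys => simp only [comb, List.length_cons]; rw [ih ys (by simpa using h)]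

lemma dotp_comb {p : ℕ} (a c : ℕ) (l l' : List ℕ) (h : l.length = l'.length) (x : ℕ → ZMod p) :
    dotp (comb a c l l') x = (a : ZMod p) * dotp l x + (c : ZMod p) * dotp l' x := by
  induction l generalizing l' x with
  | nil => cases l' with
    | nil => simp [comb, dotp]
    | cons _ _ => simp at h
  | cons u us ih => cases l' with
    | nil => simp at h
    | cons v vs =>
      simp only [comb, dotp]
      rw [ih vs (by simpa using h)]
      push_cast
      ring

lemma comb_lt (a c bnd p : ℕ) (hp : 0 < p) (ha : a ≤ p) (hc : c ≤ p) (l l' : List ℕ)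
    (hl : ∀ d ∈ l, d < bnd) (hl' : ∀ d ∈ l', d < bnd) :
    ∀ d ∈ comb a c l l', d < 2 * p * bnd := by
  induction l generalizing l' with
  | nil => intro d hd; simp [comb] at hd
  | cons x xs ih => cases l' with
    | nil => intro d hd; simp [comb] at hd
    | cons y ys =>
      intro d hd
      simp only [comb, List.mem_cons] at hd
      rcases hd with hd | hd
      · have h1 := hl x (by simp)
        have h2 := hl' y (by simp)
        rw [hd]
        nlinarith
      · exact ih ys (fun d hd => hl d (by simp [hd])) (fun d hd => hl' d (by simp [hd])) d hd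

lemma enc_cons_land (b d : ℕ) (l : List ℕ) (hd : d < 2 ^ b) :
    Nat.land (enc b (d :: l)) (2 ^ b - 1) = d := by
  change (enc b (d :: l)) &&& (2 ^ b - 1) = d
  rw [Nat.and_two_pow_sub_one_eq_mod]
  simp only [enc]
  rw [Nat.add_mul_mod_self_right, Nat.mod_eq_of_lt hd]

lemma enc_cons_shift (b d : ℕ) (l : List ℕ) (hd : d < 2 ^ b) :
    Nat.shiftRight (enc b (d :: l)) b = enc b l := by
  change (enc b (d :: l)) >>> b = enc b l
  rw [Nat.shiftRight_eq_div_pow]
  simp only [enc]
  rw [Nat.add_mul_div_right _ _ (by positivity), Nat.div_eq_of_lt hd, zero_add]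

theorem elim_sound (b p : ℕ) [hp : Fact p.Prime] : ∀ (n : ℕ) (rows : List (List ℕ)) (bnd : ℕ),
    (∀ r ∈ rows, r.length = n) → (∀ r ∈ rows, ∀ d ∈ r, d < bnd) →
    bnd * (2 * p) ^ n ≤ 2 ^ b → elim b (2 ^ b - 1) p n (rows.map (enc b)) = true →
    ∀ x : ℕ → ZMod p, (∀ r ∈ rows, dotp r x = 0) → ∀ i < n, x i = 0 := by
  intro n
  have hp0 : 0 < p := hp.out.pos
  induction n with
  | zero => intro rows bnd _ _ _ _ x _ i hi; omega
  | succ n ih =>
    intro rows bnd hlen hbnd hB hel x hx
    cases rows with
    | nil => simp [elim] at hel
    | cons r rows =>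
      have hr := hlen r (by simp)
      cases r with
      | nil => simp at hr
      | cons d l =>
        have hbB : bnd ≤ 2 ^ b := by
          refine le_trans ?_ hB
          exact Nat.le_mul_of_pos_right _ (by positivity)
        have hd : d < 2 ^ b := lt_of_lt_of_le (hbnd (d :: l) (by simp) d (by simp)) hbB
        simp only [List.map_cons, elim, force_eq, enc_cons_land b d l hd,
          enc_cons_shift b d l hd] at hel
        cases ha : d % p with
        | zero => rw [ha] at hel; simp at hel
        | succ a' =>
          rw [ha] at hel
          simp only [mapF_eq] at hel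
          set rows' : List (List ℕ) := rows.map (fun r' => match r' with
            | [] => []
            | d' :: l' => comb (a' + 1) (p - d' % p) l' l) with hrows'
          have hrow : ∀ r' ∈ rows, ∃ d' l', r' = d' :: l' ∧ l'.length = n ∧ d' < bnd ∧
              (∀ e ∈ l', e < bnd) := by
            intro r' hr'
            have h1 := hlen r' (by simp [hr'])
            cases r' with
            | nil => simp at h1
            | cons d' l' =>
              refine ⟨d', l', rfl, by simpa using h1, hbnd (d' :: l') (by simp [hr']) d' (by simp), ?_⟩
              intro e he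
              exact hbnd (d' :: l') (by simp [hr']) e (by simp [he])
          have hl : l.length = n := by simpa using hr
          have hlb : ∀ e ∈ l, e < bnd := fun e he => hbnd (d :: l) (by simp) e (by simp [he])
          have hmap : (rows.map (enc b)).map (fun R' => (a' + 1) * (Nat.shiftRight R' b) +
              (p - Nat.land R' (2 ^ b - 1) % p) * enc b l) = rows'.map (enc b) := by
            rw [hrows', List.map_map, List.map_map]
            apply List.map_congr_left
            intro r' hr'
            obtain ⟨d', l', rfl, hl', hd', -⟩ := hrow r' hr'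
            simp only [Function.comp]
            rw [enc_cons_land b d' l' (lt_of_lt_of_le hd' hbB),
              enc_cons_shift b d' l' (lt_of_lt_of_le hd' hbB), enc_comb _ _ _ _ _ (by rw [hl', hl])]
          rw [hmap] at hel
          have ha1 : a' + 1 ≤ p := by
            have := Nat.mod_lt d hp0
            omega
          have hdz : (d : ZMod p) = ((a' + 1 : ℕ) : ZMod p) := by
            rw [← ha, ZMod.natCast_mod]
          have hdne : (d : ZMod p) ≠ 0 := by
            intro h0
            rw [ZMod.natCast_eq_zero_iff] at h0
            have := Nat.mod_eq_zero_of_dvd h0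
            omega
          have hx0 : (d : ZMod p) * x 0 + dotp l (fun i => x (i + 1)) = 0 := hx (d :: l) (by simp)
          have hI := ih rows' (2 * p * bnd) ?_ ?_ ?_ hel (fun i => x (i + 1)) ?_
          · intro i hi
            have hl0 : dotp l (fun i => x (i + 1)) = 0 := by
              have : ∀ (l : List ℕ) (y : ℕ → ZMod p), (∀ i < l.length, y i = 0) →
                  dotp l y = 0 := by
                intro l
                induction l with
                | nil => intro y _; rfl
                | cons u us ihu =>
                  intro y hy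
                  simp only [dotp]
                  rw [hy 0 (by simp), ihu (fun i => y (i + 1))
                    (fun i hi => hy (i + 1) (by simp; exact hi))]
                  simp
              exact this l _ (fun i hi => hI i (by rw [hl] at hi; exact hi))
            cases i with
            | zero =>
              rw [hl0, add_zero] at hx0
              rcases mul_eq_zero.1 hx0 with h | h
              · exact absurd h hdne
              · exact h
            | succ i => exact hI i (by omega)
          · intro r' hr'
            rw [hrows', List.mem_map] at hr'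
            obtain ⟨r, hr1, rfl⟩ := hr'
            obtain ⟨d', l', rfl, hl', -, -⟩ := hrow r hr1
            rw [length_comb _ _ _ _ (by rw [hl', hl]), hl']
          · intro r' hr'
            rw [hrows', List.mem_map] at hr'
            obtain ⟨r, hr1, rfl⟩ := hr'
            obtain ⟨d', l', rfl, hl', hd', hlb'⟩ := hrow r hr1
            exact comb_lt _ _ bnd p hp0 ha1 (Nat.sub_le _ _) _ _ hlb' hlb
          · calc 2 * p * bnd * (2 * p) ^ n = bnd * (2 * p) ^ (n + 1) := by ring
              _ ≤ 2 ^ b := hB
          · intro r' hr'
            rw [hrows', List.mem_map] at hr'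
            obtain ⟨r, hr1, rfl⟩ := hr'
            obtain ⟨d', l', rfl, hl', -, -⟩ := hrow r hr1
            simp only
            rw [dotp_comb _ _ _ _ (by rw [hl', hl])]
            have h2 : (d' : ZMod p) * x 0 + dotp l' (fun i => x (i + 1)) = 0 :=
              hx (d' :: l') (by simp [hr1])
            have h3 : ((p - d' % p : ℕ) : ZMod p) = - (d' : ZMod p) := by
              rw [Nat.cast_sub (Nat.mod_lt _ hp0).le, ZMod.natCast_self, ZMod.natCast_mod]
              ring
            rw [h3, ← hdz]
            linear_combination (d : ZMod p) * h2 - (d' : ZMod p) * hx0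

lemma rows_eq {τ : Type} (b p N : ℕ) (F : ℕ → (List ℕ → ℕ) → ℕ) (vl : List τ) (f : ℕ → τ → ℕ)
    (hF : ∀ s k, F s k = k (vl.map fun v => f s v % p)) :
    (List.range N).map (fun s => F s (enc b)) =
      ((List.range N).map fun s => vl.map fun v => f s v % p).map (enc b) := by
  rw [List.map_map]
  apply List.map_congr_left
  intro s _
  rw [hF]
  rfl

lemma dotp_eq {p : ℕ} (l : List ℕ) (x : ℕ → ZMod p) :
    dotp l x = ∑ i : Fin l.length, (l[(i : ℕ)] : ZMod p) * x i := by
  induction l generalizing x with
  | nil => simp [dotp]
  | cons a l ih =>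
    simp only [dotp, ih, List.length_cons, Fin.sum_univ_succ]
    simp

theorem det_ne_zero_of_elim (p b N : ℕ) [Fact p.Prime] {τ : Type} (vl : List τ)
    (hl : vl.length = N) (f : ℕ → τ → ℕ) (hB : p * (2 * p) ^ N ≤ 2 ^ b)
    (hc : elim b (2 ^ b - 1) p N
      (((List.range N).map fun s => vl.map fun v => f s v % p).map (enc b)) = true) :
    (Matrix.of fun (n s : Fin N) =>
      ((f (s : ℕ) (vl[(n : ℕ)]'(by rw [hl]; exact n.2)) : ℕ) : ZMod p)).det ≠ 0 := by
  intro h0
  obtain ⟨x, hx0, hx⟩ := Matrix.exists_vecMul_eq_zero_iff.2 h0
  apply hx0
  have hp0 : 0 < p := (Fact.out : p.Prime).pos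
  have hs := elim_sound b p N _ p ?_ ?_ hB hc
    (fun i => if h : i < N then x ⟨i, h⟩ else 0) ?_
  · funext i
    have := hs i i.2
    simpa using this
  · intro r hr
    rw [List.mem_map] at hr
    obtain ⟨s, _, rfl⟩ := hr
    rw [List.length_map, hl]
  · intro r hr d hd
    rw [List.mem_map] at hr
    obtain ⟨s, _, rfl⟩ := hr
    rw [List.mem_map] at hd
    obtain ⟨w, _, rfl⟩ := hd
    exact Nat.mod_lt _ hp0
  · intro r hr
    rw [List.mem_map] at hr
    obtain ⟨s, hs, rfl⟩ := hr
    rw [List.mem_range] at hs
    rw [dotp_eq]
    have h1 := congrFun hx ⟨s, hs⟩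
    simp only [Matrix.vecMul, dotProduct, Matrix.of_apply, Pi.zero_apply] at h1
    rw [← h1]
    have hlen : (vl.map fun v => f s v % p).length = N := by
      rw [List.length_map, hl]
    refine Fintype.sum_equiv (finCongr hlen) _ _ ?_
    intro i
    have hi : (i : ℕ) < N := by
      have := i.2
      omega
    simp only [List.getElem_map, ZMod.natCast_mod, dif_pos hi]
    rw [mul_comm]
    rfl

end Pool.Agent.H217R3.Elim
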