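import Pool.Agent.H647R3.EDef

/-! Task T of project H647-GDS (helper217): a Bernstein-like set. -/

set_option autoImplicit false

open Set Topology Cardinal

namespace Pool.Agent.H217R3.GDST

open H647R3.GDS

/-- choice along a well-founded relation -/
lemma exists_choice {K V : Type*} {r : K → K → Prop} (wf : WellFounded r)
    (P : ∀ k : K, (∀ k', r k' k → V) → V → Prop)
    (h : ∀ k f, ∃ v, P k f v) : ∃ c : K → V, ∀ k, P k (fun k' _ => c k') (c k) := by
  classical
  refine ⟨wf.fix (fun k f => Classical.choose (h k f)), fun k => ?_⟩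
  have h1 := WellFounded.fix_eq wf (fun k (f : ∀ k', r k' k → V) => Classical.choose (h k f)) k
  rw [h1]
  exact Classical.choose_spec (h k _)

abbrev KT : Type := {τ : Cant → Cant // Continuous τ ∧ Function.Injective τ}

abbrev KN : Type := {N : Set (Cant × Cant) // MeasurableSet N ∧ (∀ σ, {t | (σ, t) ∈ N}.Countable) ∧
  (∀ σ σ' t, (σ, t) ∈ N → (σ', t) ∈ N → σ = σ')}

lemma card_cant : #Cant = 𝔠 := by
  simp [Cant]

lemma card_KT : #KT ≤ 𝔠 := by
  have hd := TopologicalSpace.denseRange_denseSeq Cant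
  have h1 : Function.Injective (fun (τ : KT) (k : ℕ) => τ.1 (TopologicalSpace.denseSeq Cant k)) := by
    intro τ τ' h
    apply Subtype.ext
    apply Continuous.ext_on hd τ.2.1 τ'.2.1
    rintro _ ⟨k, rfl⟩
    exact congrFun h k
  have h2 := Cardinal.mk_le_of_injective h1
  refine h2.trans ?_
  rw [← Cardinal.power_def, card_cant]
  simp

lemma card_KN : #KN ≤ 𝔠 := by
  have h1 : Function.Injective (fun (N : KN) =>
      (⟨N.1, N.2.1⟩ : {t : Set (Cant × Cant) // MeasurableSet t})) := by
    intro N N' h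
    apply Subtype.ext
    simpa using h
  refine (Cardinal.mk_le_of_injective h1).trans ?_
  have h2 := MeasurableSpace.cardinal_measurableSet_le_continuum
    (s := MeasurableSpace.countableGeneratingSet (Cant × Cant))
    ((MeasurableSpace.countable_countableGeneratingSet (α := Cant × Cant)).le_aleph0.trans
      aleph0_le_continuum)
  rw [MeasurableSpace.generateFrom_countableGeneratingSet] at h2
  exact h2

theorem taskT : TaskT := by
  classical
  obtain ⟨r, wo, hr⟩ := Cardinal.exists_ord_eq (KT ⊕ KN)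
  have hK : #(KT ⊕ KN) ≤ 𝔠 := by
    rw [Cardinal.mk_sum, Cardinal.lift_id, Cardinal.lift_id]
    exact (add_le_add card_KT card_KN).trans (by rw [continuum_add_self])
  have hpred : ∀ k : KT ⊕ KN, #{k' // r k' k} < 𝔠 := by
    intro k
    have := Cardinal.card_typein_lt (r := r) k hr
    rw [Ordinal.card_typein] at this
    exact this.trans_le hK
  obtain ⟨c, hc⟩ := exists_choice (r := r) (V := Cant) wo.wf
    (fun k f v =>
      (∀ τ : KT, k = Sum.inl τ → (∃ σ, v = τ.1 σ) ∧
        ∀ k' (h : r k' k) (N : KN), k' = Sum.inr N → (f k' h, v) ∉ N.1) ∧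
      (∀ N : KN, k = Sum.inr N →
        ∀ k' (h : r k' k) (τ : KT), k' = Sum.inl τ → (v, f k' h) ∉ N.1)) (by
    intro k f
    rcases k with τ | N
    · -- value of `τ` outside a small set
      let B : {k' // r k' (Sum.inl τ)} → Set Cant := fun k' =>
        {t | ∃ N : KN, k'.1 = Sum.inr N ∧ (f k'.1 k'.2, t) ∈ N.1}
      have hB : ∀ k', (B k').Countable := by
        intro k'
        by_cases h : ∃ N : KN, k'.1 = Sum.inr N
        · obtain ⟨N, hN⟩ := h
          apply (N.2.2.1 (f k'.1 k'.2)).mono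
          rintro t ⟨N', hN', ht⟩
          have : N' = N := Sum.inr_injective (hN'.symm.trans hN)
          subst this
          exact ht
        · convert Set.countable_empty (α := Cant) using 1
          ext t
          simp only [B, Set.mem_ofPred_eq, Set.mem_empty_iff_false, iff_false]
          rintro ⟨N, hN, _⟩
          exact h ⟨N, hN⟩
      have hBc : #(⋃ k', B k' : Set Cant) < 𝔠 := by
        refine (Cardinal.mk_iUnion_le B).trans_lt ?_
        refine lt_of_le_of_lt (mul_le_mul_right
          (ciSup_le' (a := ℵ₀) fun k' => (hB k').le_aleph0) #{k' // r k' (Sum.inl τ)}) ?_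
        exact Cardinal.mul_lt_of_lt aleph0_le_continuum (hpred _) aleph0_lt_continuum
      have hne : ∃ σ, τ.1 σ ∉ ⋃ k', B k' := by
        by_contra hcon
        push Not at hcon
        have h1 : Set.range τ.1 ⊆ ⋃ k', B k' := by
          rintro _ ⟨σ, rfl⟩; exact hcon σ
        have h2 := Cardinal.mk_le_mk_of_subset h1
        rw [Cardinal.mk_range_eq _ τ.2.2, card_cant] at h2
        exact absurd hBc (not_lt.2 h2)
      obtain ⟨σ, hσ⟩ := hne
      refine ⟨τ.1 σ, ?_, ?_⟩
      · intro τ' hτ'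
        have : τ' = τ := Sum.inl_injective hτ'.symm
        subst this
        refine ⟨⟨σ, rfl⟩, fun k' h N hN hmem => hσ ?_⟩
        rw [Set.mem_iUnion]
        exact ⟨⟨k', h⟩, N, hN, hmem⟩
      · intro N hN
        cases hN
    · let B : {k' // r k' (Sum.inr N)} → Set Cant := fun k' => {v | (v, f k'.1 k'.2) ∈ N.1}
      have hB : ∀ k', #(B k') ≤ 1 := by
        intro k'
        rw [Cardinal.mk_le_one_iff_set_subsingleton]
        intro v hv v' hv'
        exact N.2.2.2 v v' _ hv hv'
      have hBc : #(⋃ k', B k' : Set Cant) < 𝔠 := by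
        refine (Cardinal.mk_iUnion_le B).trans_lt ?_
        refine lt_of_le_of_lt (mul_le_mul_right
          (ciSup_le' (a := 1) fun k' => hB k') #{k' // r k' (Sum.inr N)}) ?_
        rw [mul_one]
        exact hpred _
      have hne : ∃ v : Cant, v ∉ ⋃ k', B k' := by
        by_contra hcon
        push Not at hcon
        have h1 : (Set.univ : Set Cant) ⊆ ⋃ k', B k' := fun v _ => hcon v
        have h2 := Cardinal.mk_le_mk_of_subset h1
        rw [Cardinal.mk_univ, card_cant] at h2
        exact absurd hBc (not_lt.2 h2)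
      obtain ⟨v, hv⟩ := hne
      refine ⟨v, ?_, ?_⟩
      · intro τ hτ
        cases hτ
      · intro N' hN' k' h τ _ hmem
        have : N' = N := Sum.inr_injective hN'.symm
        subst this
        apply hv
        rw [Set.mem_iUnion]
        exact ⟨⟨k', h⟩, hmem⟩)
  refine ⟨{t | ∃ τ : KT, t = c (Sum.inl τ)}, ?_, ?_⟩
  · intro τ h1 h2
    obtain ⟨σ, hσ⟩ := ((hc (Sum.inl ⟨τ, h1, h2⟩)).1 ⟨τ, h1, h2⟩ rfl).1
    exact ⟨σ, ⟨τ, h1, h2⟩, hσ.symm⟩
  · intro N h1 h2 h3
    refine ⟨c (Sum.inr ⟨N, h1, h2, h3⟩), ?_⟩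
    rintro t ⟨τ, rfl⟩ hmem
    rcases (trichotomous_of r (Sum.inl τ : KT ⊕ KN) (Sum.inr ⟨N, h1, h2, h3⟩)) with h | h | h
    · exact (hc (Sum.inr ⟨N, h1, h2, h3⟩)).2 ⟨N, h1, h2, h3⟩ rfl _ h τ rfl hmem
    · cases h
    · exact ((hc (Sum.inl τ)).1 τ rfl).2 _ h ⟨N, h1, h2, h3⟩ rfl hmem

end Pool.Agent.H217R3.GDST
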