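import Mathlib

/-!
Jacobian criterion: polynomials with non-vanishing Jacobian determinant are algebraically
independent (characteristic zero), and more polynomials than variables are dependent.
-/

open MvPolynomial

namespace Pool.Agent.H217R3.Jac

variable {K : Type*} [Field K] {σ : Type*} {n : ℕ}

lemma pderiv_aeval_fin (B : Fin n → MvPolynomial σ K) (Q : MvPolynomial (Fin n) K) (v : σ) :
    pderiv v (aeval B Q) = ∑ s, aeval B (pderiv s Q) * pderiv v (B s) := by
  induction Q using MvPolynomial.induction_on with
  | C a => simp
  | add p q hp hq => simp only [map_add, hp, hq, add_mul, Finset.sum_add_distrib]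
  | mul_X p i hp =>
    rw [map_mul, aeval_X, pderiv_mul, hp]
    simp only [pderiv_mul, pderiv_X, map_add, map_mul, aeval_X, add_mul, Finset.sum_add_distrib]
    congr 1
    · rw [Finset.sum_mul]
      refine Finset.sum_congr rfl fun s _ => ?_
      ring
    · rw [Finset.sum_eq_single i]
      · simp
      · intro b _ hb
        simp [hb.symm]
      · simp

lemma eq_C_of_pderiv_eq_zero [CharZero K] (Q : MvPolynomial (Fin n) K)
    (h : ∀ s, pderiv s Q = 0) : Q = C (coeff 0 Q) := by
  ext m
  rw [coeff_C]
  split_ifs with hm
  · rw [← hm]
  · have : ∃ s, m s ≠ 0 := by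
      by_contra hc
      push Not at hc
      exact hm (Finsupp.ext fun s => (hc s).symm)
    obtain ⟨s, hs⟩ := this
    have h1 := coeff_pderiv (i := s) Q (m - Finsupp.single s 1)
    rw [h s, coeff_zero] at h1
    have h2 : m - Finsupp.single s 1 + Finsupp.single s 1 = m := by
      apply tsub_add_cancel_of_le
      rw [Finsupp.single_le_iff]
      omega
    rw [h2] at h1
    have h3 : ((((m - Finsupp.single s 1 : Fin n →₀ ℕ) s : ℕ) : K)) + 1 ≠ 0 :=
      Nat.cast_add_one_ne_zero _
    rcases mul_eq_zero.1 h1.symm with h4 | h4
    · exact h4
    · exact absurd h4 h3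

theorem aeval_injective_of_det [CharZero K] (B : Fin n → MvPolynomial σ K) (v : Fin n → σ)
    (hdet : (Matrix.of fun i s => pderiv (v i) (B s)).det ≠ 0)
    (Q : MvPolynomial (Fin n) K) (hQ : aeval B Q = 0) : Q = 0 := by
  have key : ∀ N : ℕ, ∀ Q : MvPolynomial (Fin n) K, (∀ m, coeff m Q ≠ 0 → m.degree ≤ N) →
      aeval B Q = 0 → Q = 0 := by
    intro N
    induction N with
    | zero =>
      intro Q hdeg hQ
      have hC : Q = C (coeff 0 Q) := by
        ext m
        rw [coeff_C]
        split_ifs with hm
        · rw [← hm]
        · by_contra hne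
          have := hdeg m hne
          have h0 : m = 0 := by
            have : m.degree = 0 := by omega
            exact (Finsupp.degree_eq_zero_iff m).1 this
          exact hm h0.symm
      rw [hC] at hQ ⊢
      rw [aeval_C] at hQ
      have := (algebraMap K (MvPolynomial σ K)).injective (hQ.trans (map_zero _).symm)
      rw [this, C_0]
    | succ N ih =>
      intro Q hdeg hQ
      have hz : ∀ s, pderiv s Q = 0 := by
        have hvec : (fun s => aeval B (pderiv s Q)) = 0 := by
          apply Matrix.eq_zero_of_mulVec_eq_zero hdet
          ext i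
          have h1 := pderiv_aeval_fin B Q (v i)
          rw [hQ, map_zero] at h1
          simp only [Matrix.mulVec, dotProduct, Matrix.of_apply, Pi.zero_apply]
          rw [h1]
          refine congrArg _ (Finset.sum_congr rfl fun s _ => mul_comm _ _)
        intro s
        apply ih _ _ (congrFun hvec s)
        intro m hm
        rw [coeff_pderiv] at hm
        have h2 := hdeg _ (left_ne_zero_of_mul hm)
        rw [map_add, Finsupp.degree_single] at h2
        omega
      have hC := eq_C_of_pderiv_eq_zero Q hz
      rw [hC] at hQ ⊢
      rw [aeval_C] at hQ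
      have := (algebraMap K (MvPolynomial σ K)).injective (hQ.trans (map_zero _).symm)
      rw [this, C_0]
  refine key (Q.totalDegree) Q ?_ hQ
  intro m hm
  have := le_totalDegree (mem_support_iff.2 hm)
  exact this

end Pool.Agent.H217R3.Jac
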