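import Pool.Agent.H217R3.Jac

/-!
Four-layer power networks over commutative rings, rescaling of hidden neurons and the parameter
count.
-/

open MvPolynomial Finset

namespace Pool.Agent.H217R3.Net

def net {S : Type*} [CommSemiring S] (e : ℕ → ℕ) (r : ℕ) (w : ℕ → ℕ → ℕ → S) (x : ℕ → S)
    (a : ℕ) : S :=
  ∑ b3 ∈ range (e 3), w 3 a b3 * (∑ b2 ∈ range (e 2), w 2 b3 b2 *
    (∑ b1 ∈ range (e 1), w 1 b2 b1 * (∑ b0 ∈ range (e 0), w 0 b1 b0 * x b0) ^ r) ^ r) ^ r

lemma map_net {S T : Type*} [CommSemiring S] [CommSemiring T] (φ : S →+* T) (e : ℕ → ℕ) (r : ℕ)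
    (w : ℕ → ℕ → ℕ → S) (x : ℕ → S) (a : ℕ) :
    φ (net e r w x a) = net e r (fun k a b => φ (w k a b)) (fun b => φ (x b)) a := by
  simp only [net, map_sum, map_mul, map_pow]

lemma net_congr {S : Type*} [CommSemiring S] (e : ℕ → ℕ) (r : ℕ) (w w' : ℕ → ℕ → ℕ → S)
    (x : ℕ → S) (a : ℕ) (h3 : ∀ b < e 3, w 3 a b = w' 3 a b)
    (h2 : ∀ c < e 3, ∀ b < e 2, w 2 c b = w' 2 c b)
    (h1 : ∀ c < e 2, ∀ b < e 1, w 1 c b = w' 1 c b)
    (h0 : ∀ c < e 1, ∀ b < e 0, w 0 c b = w' 0 c b) :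
    net e r w x a = net e r w' x a := by
  unfold net
  refine sum_congr rfl fun b3 hb3 => ?_
  rw [mem_range] at hb3
  rw [h3 b3 hb3]
  congr 2
  refine sum_congr rfl fun b2 hb2 => ?_
  rw [mem_range] at hb2
  rw [h2 b3 hb3 b2 hb2]
  congr 2
  refine sum_congr rfl fun b1 hb1 => ?_
  rw [mem_range] at hb1
  rw [h1 b2 hb2 b1 hb1]
  congr 2
  refine sum_congr rfl fun b0 hb0 => ?_
  rw [mem_range] at hb0
  rw [h0 b1 hb1 b0 hb0]

section scaling

variable {K : Type*} [Field K] (r : ℕ) (w : ℕ → ℕ → ℕ → K)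

def l1 (a : ℕ) : K := w 0 a 0
def l2 (a : ℕ) : K := w 1 a 0 * l1 w 0 ^ r
def l3 (a : ℕ) : K := w 2 a 0 * l2 r w 0 ^ r

/-- rescaled weights -/
def nw (k a b : ℕ) : K :=
  match k with
  | 0 => w 0 a b / l1 w a
  | 1 => w 1 a b * l1 w b ^ r / l2 r w a
  | 2 => w 2 a b * l2 r w b ^ r / l3 r w a
  | 3 => w 3 a b * l3 r w b ^ r
  | _ => w k a b

lemma net_nw (hw : ∀ k < 3, ∀ a, w k a 0 ≠ 0) (e : ℕ → ℕ) (x : ℕ → K) (a : ℕ) :
    net e r w x a = net e r (nw r w) x a := by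
  have n1 : ∀ a, l1 w a ≠ 0 := fun a => hw 0 (by norm_num) a
  have n2 : ∀ a, l2 r w a ≠ 0 := fun a => mul_ne_zero (hw 1 (by norm_num) a) (pow_ne_zero _ (n1 0))
  have n3 : ∀ a, l3 r w a ≠ 0 := fun a => mul_ne_zero (hw 2 (by norm_num) a) (pow_ne_zero _ (n2 0))
  have e1 : ∀ b1, (∑ b0 ∈ range (e 0), w 0 b1 b0 * x b0) =
      l1 w b1 * ∑ b0 ∈ range (e 0), nw r w 0 b1 b0 * x b0 := by
    intro b1
    rw [mul_sum]
    refine sum_congr rfl fun b0 _ => ?_
    simp only [nw]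
    field_simp [n1 b1]
  have e2 : ∀ b2, (∑ b1 ∈ range (e 1), w 1 b2 b1 * (∑ b0 ∈ range (e 0), w 0 b1 b0 * x b0) ^ r) =
      l2 r w b2 * ∑ b1 ∈ range (e 1), nw r w 1 b2 b1 *
        (∑ b0 ∈ range (e 0), nw r w 0 b1 b0 * x b0) ^ r := by
    intro b2
    rw [mul_sum]
    refine sum_congr rfl fun b1 _ => ?_
    rw [e1, mul_pow]
    generalize (∑ b0 ∈ range (e 0), nw r w 0 b1 b0 * x b0) ^ r = z
    simp only [nw]
    field_simp [n2 b2]
  have e3 : ∀ b3, (∑ b2 ∈ range (e 2), w 2 b3 b2 * (∑ b1 ∈ range (e 1), w 1 b2 b1 *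
      (∑ b0 ∈ range (e 0), w 0 b1 b0 * x b0) ^ r) ^ r) =
      l3 r w b3 * ∑ b2 ∈ range (e 2), nw r w 2 b3 b2 * (∑ b1 ∈ range (e 1), nw r w 1 b2 b1 *
        (∑ b0 ∈ range (e 0), nw r w 0 b1 b0 * x b0) ^ r) ^ r := by
    intro b3
    rw [mul_sum]
    refine sum_congr rfl fun b2 _ => ?_
    rw [e2, mul_pow]
    generalize (∑ b1 ∈ range (e 1), nw r w 1 b2 b1 *
        (∑ b0 ∈ range (e 0), nw r w 0 b1 b0 * x b0) ^ r) ^ r = z
    simp only [nw]
    field_simp [n3 b3]
  unfold net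
  refine sum_congr rfl fun b3 _ => ?_
  rw [e3, mul_pow]
  simp only [nw]
  ring

lemma nw_zero (hw : ∀ k < 3, ∀ a, w k a 0 ≠ 0) (k : ℕ) (hk : k < 3) (a : ℕ) :
    nw r w k a 0 = 1 := by
  have n1 : ∀ a, l1 w a ≠ 0 := fun a => hw 0 (by norm_num) a
  have n2 : ∀ a, l2 r w a ≠ 0 := fun a => mul_ne_zero (hw 1 (by norm_num) a) (pow_ne_zero _ (n1 0))
  have n3 : ∀ a, l3 r w a ≠ 0 := fun a => mul_ne_zero (hw 2 (by norm_num) a) (pow_ne_zero _ (n2 0))
  interval_cases k
  · simp only [nw, l1]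
    exact div_self (n1 a)
  · simp only [nw]
    rw [show w 1 a 0 * l1 w 0 ^ r = l2 r w a from rfl]
    exact div_self (n2 a)
  · simp only [nw]
    rw [show w 2 a 0 * l2 r w 0 ^ r = l3 r w a from rfl]
    exact div_self (n3 a)

end scaling

lemma exists_dependent {T : Type} [Fintype T] {n : ℕ} (h : Fintype.card T < n)
    (B : Fin n → MvPolynomial T ℂ) : ∃ Q : MvPolynomial (Fin n) ℂ, Q ≠ 0 ∧ aeval B Q = 0 := by
  by_contra hcon
  push Not at hcon
  have hind : AlgebraicIndependent ℂ B := by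
    rw [algebraicIndependent_iff]
    intro Q hQ
    by_contra hne
    exact hcon Q hne hQ
  have h1 := hind.lift_cardinalMk_le_trdeg
  rw [MvPolynomial.trdeg_of_isDomain] at h1
  simp only [Cardinal.mk_fintype, Fintype.card_fin, Cardinal.lift_natCast, Nat.cast_le] at h1
  omega

/-- the sample point `(1, s)` -/
def pt {S : Type*} [CommSemiring S] (s : ℕ) (b : ℕ) : S := if b = 0 then 1 else (s : S)

/-- the network values at the points `(1,s)`, `s < 217`, are algebraically independent -/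
def DenseVal (e : ℕ → ℕ) : Prop :=
  ∀ Q : MvPolynomial (Fin 217) ℂ,
    (∀ w : ℕ → ℕ → ℕ → ℂ, eval (fun s : Fin 217 => net e 6 w (pt (s : ℕ)) 0) Q = 0) → Q = 0

def params (e : ℕ → ℕ) : Finset (ℕ × ℕ × ℕ) :=
  ({0} ×ˢ (range (e 1) ×ˢ Ico 1 (e 0))) ∪ (({1} ×ˢ (range (e 2) ×ˢ Ico 1 (e 1))) ∪
    (({2} ×ˢ (range (e 3) ×ˢ Ico 1 (e 2))) ∪ ({3} ×ˢ ({0} ×ˢ range (e 3)))))

lemma card_params_le (e : ℕ → ℕ) : (params e).card ≤
    e 1 * (e 0 - 1) + (e 2 * (e 1 - 1) + (e 3 * (e 2 - 1) + e 3)) := by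
  unfold params
  refine (card_union_le _ _).trans ?_
  refine add_le_add (by simp) ?_
  refine (card_union_le _ _).trans ?_
  refine add_le_add (by simp) ?_
  refine (card_union_le _ _).trans ?_
  refine add_le_add (by simp) (by simp)

theorem not_denseVal (e : ℕ → ℕ)
    (h : e 1 * (e 0 - 1) + (e 2 * (e 1 - 1) + (e 3 * (e 2 - 1) + e 3)) < 217) :
    ¬ DenseVal e := by
  classical
  intro hD
  set T := params e with hT
  have hcard : Fintype.card T < 217 := by
    rw [Fintype.card_coe]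
    exact lt_of_le_of_lt (card_params_le e) h
  obtain ⟨Q, hQ0, hQ⟩ := exists_dependent hcard
    (fun s : Fin 217 => net e 6 (fun k a b => if h : (k, a, b) ∈ T then
      (X ⟨(k, a, b), h⟩ : MvPolynomial T ℂ) else 1) (pt (s : ℕ)) 0)
  apply hQ0
  apply hD
  intro w
  -- generic weights in the fraction field
  let R := MvPolynomial (ℕ × ℕ × ℕ) ℂ
  let K := FractionRing R
  let wK : ℕ → ℕ → ℕ → K := fun k a b => algebraMap R K (X (k, a, b))
  have hwK : ∀ k < 3, ∀ a, wK k a 0 ≠ 0 := by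
    intro k _ a h0
    have := (IsFractionRing.injective R K) (h0.trans (map_zero _).symm)
    exact X_ne_zero _ this
  let φ : MvPolynomial T ℂ →ₐ[ℂ] K := aeval fun t => nw 6 wK t.1.1 t.1.2.1 t.1.2.2
  have hφ : ∀ s : Fin 217, φ (net e 6 (fun k a b => if h : (k, a, b) ∈ T then
      (X ⟨(k, a, b), h⟩ : MvPolynomial T ℂ) else 1) (pt (s : ℕ)) 0) =
      algebraMap R K (net e 6 (fun k a b => X (k, a, b)) (pt (s : ℕ)) 0) := by
    intro s
    have h1 := map_net (φ : MvPolynomial T ℂ →+* K) e 6 (fun k a b => if h : (k, a, b) ∈ T then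
      (X ⟨(k, a, b), h⟩ : MvPolynomial T ℂ) else 1) (pt (s : ℕ)) 0
    have h2 := map_net (algebraMap R K) e 6 (fun k a b => X (k, a, b)) (pt (s : ℕ)) 0
    rw [RingHom.coe_coe] at h1
    rw [h1, h2]
    have h3 : (fun b => (algebraMap R K) (pt (s : ℕ) b)) = pt (s : ℕ) := by
      funext b
      unfold pt
      split_ifs <;> simp
    have h4 : (fun b => φ (pt (s : ℕ) b)) = pt (s : ℕ) := by
      funext b
      unfold pt
      split_ifs <;> simp
    rw [h3, h4]
    rw [net_nw 6 (fun k a b => (algebraMap R K) (X (k, a, b))) hwK]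
    have hgen : ∀ k a b, ((k < 3 ∧ b = 0 ∧ (k, a, b) ∉ T) ∨ (k, a, b) ∈ T) →
        φ (if h : (k, a, b) ∈ T then (X ⟨(k, a, b), h⟩ : MvPolynomial T ℂ) else 1) =
          nw 6 wK k a b := by
      intro k a b hk
      rcases hk with ⟨hk, rfl, hnot⟩ | hmem
      · rw [dif_neg hnot, map_one, nw_zero 6 wK hwK k hk]
      · rw [dif_pos hmem]
        simp only [φ, aeval_X]
    apply net_congr
    · intro b hb
      apply hgen
      right
      simp [hT, params, hb]
    · intro c hc b hb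
      apply hgen
      by_cases hb0 : b = 0
      · left
        refine ⟨by norm_num, hb0, ?_⟩
        simp [hT, params, hb0]
      · right
        have : 1 ≤ b := by omega
        simp [hT, params, hc, hb, this]
    · intro c hc b hb
      apply hgen
      by_cases hb0 : b = 0
      · left
        refine ⟨by norm_num, hb0, ?_⟩
        simp [hT, params, hb0]
      · right
        have : 1 ≤ b := by omega
        simp [hT, params, hc, hb, this]
    · intro c hc b hb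
      apply hgen
      by_cases hb0 : b = 0
      · left
        refine ⟨by norm_num, hb0, ?_⟩
        simp [hT, params, hb0]
      · right
        have : 1 ≤ b := by omega
        simp [hT, params, hc, hb, this]
  have hK : aeval (fun s : Fin 217 => net e 6 (fun k a b => (X (k, a, b) : R)) (pt (s : ℕ)) 0) Q
      = 0 := by
    apply IsFractionRing.injective R K
    rw [map_zero]
    have h1 : φ (aeval (fun s : Fin 217 => net e 6 (fun k a b => if h : (k, a, b) ∈ T then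
      (X ⟨(k, a, b), h⟩ : MvPolynomial T ℂ) else 1) (pt (s : ℕ)) 0) Q) = 0 := by
      rw [hQ, map_zero]
    rw [← h1]
    have h2 := congrArg (fun f => f Q) (MvPolynomial.comp_aeval (fun s : Fin 217 => net e 6
      (fun k a b => if h : (k, a, b) ∈ T then
      (X ⟨(k, a, b), h⟩ : MvPolynomial T ℂ) else 1) (pt (s : ℕ)) 0) φ)
    simp only [AlgHom.coe_comp, Function.comp_apply] at h2
    rw [h2]
    simp only [hφ]
    have h3 := congrArg (fun f => f Q) (MvPolynomial.comp_aeval (fun s : Fin 217 => net e 6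
      (fun k a b => (X (k, a, b) : R)) (pt (s : ℕ)) 0) (IsScalarTower.toAlgHom ℂ R K))
    simp only [AlgHom.coe_comp, Function.comp_apply, IsScalarTower.coe_toAlgHom'] at h3
    exact h3
  have h5 := congrArg (eval fun t : ℕ × ℕ × ℕ => w t.1 t.2.1 t.2.2) hK
  rw [map_zero] at h5
  rw [← h5]
  have h6 : ∀ s : Fin 217, eval (fun t : ℕ × ℕ × ℕ => w t.1 t.2.1 t.2.2)
      (net e 6 (fun k a b => (X (k, a, b) : R)) (pt (s : ℕ)) 0) = net e 6 w (pt (s : ℕ)) 0 := by
    intro s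
    rw [map_net]
    congr 1
    · funext k a b
      simp
    · funext b
      unfold pt
      split_ifs <;> simp
  simp only [← h6]
  rw [← MvPolynomial.coe_aeval_eq_eval, ← MvPolynomial.coe_aeval_eq_eval]
  have h7 := congrArg (fun f => f Q) (MvPolynomial.comp_aeval (fun s : Fin 217 => net e 6
      (fun k a b => (X (k, a, b) : R)) (pt (s : ℕ)) 0)
      (aeval (R := ℂ) fun t : ℕ × ℕ × ℕ => w t.1 t.2.1 t.2.2))
  simp only [AlgHom.coe_comp, Function.comp_apply] at h7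
  exact h7.symm

end Pool.Agent.H217R3.Net
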