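import Pool.Agent.H217R3.Elim

/-!
The numerical Jacobian of the network (2,6,5,38,1), r = 6, at an explicit point, modulo 223.
-/

namespace Pool.Agent.H217R3.Num

open Pool.Agent.H217R3.Elim

def U (i j : ℕ) : ℕ := (i * 6 + j) ^ 2 % 7 + 1
def Cc (a i : ℕ) : ℕ := (a * 5 + i) ^ 3 % 41 + 1

/-- weights at the base point -/
def wt (k a b : ℕ) : ℕ :=
  match k with
  | 0 => if b = 0 then 1 else a
  | 1 => U a b
  | 2 => Cc a b
  | _ => 1

def h1 (s j : ℕ) : ℕ := 1 + j * s
def h2 (s i : ℕ) : ℕ := ∑ j ∈ Finset.range 6, U i j * h1 s j ^ 6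
def h3 (s a : ℕ) : ℕ := ∑ i ∈ Finset.range 5, Cc a i * h2 s i ^ 6
def G' (s i : ℕ) : ℕ := ∑ a ∈ Finset.range 38, Cc a i * (6 * h3 s a ^ 5)

/-- the derivative of the value at `(1, s)` in direction of the weight `v` -/
def entry (s : ℕ) (v : ℕ × ℕ × ℕ) : ℕ :=
  if v.1 = 2 then 6 * h3 s v.2.1 ^ 5 * h2 s v.2.2 ^ 6
  else if v.1 = 1 then G' s v.2.1 * (6 * h2 s v.2.1 ^ 5) * h1 s v.2.2 ^ 6
  else (∑ i ∈ Finset.range 5, U i v.2.1 * (G' s i * (6 * h2 s i ^ 5))) *
    (6 * h1 s v.2.1 ^ 5) * s

def vL : List (ℕ × ℕ × ℕ) :=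
  ((List.range 38).flatMap fun a => (List.range 5).map fun i => (2, a, i)) ++
  (((List.range 5).flatMap fun i => (List.range 5).map fun j => (1, i, j)) ++
  (List.range 2).map fun j => (0, j, 1))

/-- `∑ f (j + k) * l_k` -/
def sz (f : ℕ → ℕ) : ℕ → List ℕ → ℕ
  | _, [] => 0
  | j, z :: zs => sz f (j + 1) zs + f j * z

lemma sz_append (f : ℕ → ℕ) (j : ℕ) (l l' : List ℕ) :
    sz f j (l ++ l') = sz f j l + sz f (j + l.length) l' := by
  induction l generalizing j with
  | nil => simp [sz]
  | cons x xs ih =>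
    simp only [List.cons_append, sz, List.length_cons, ih]
    rw [show j + 1 + xs.length = j + (xs.length + 1) by ring]
    ring

lemma sz_map (f g : ℕ → ℕ) (n : ℕ) :
    sz f 0 ((List.range n).map g) = ∑ j ∈ Finset.range n, f j * g j := by
  induction n with
  | zero => simp [sz]
  | succ n ih =>
    rw [List.range_succ, List.map_append, sz_append, ih, Finset.sum_range_succ]
    simp [sz]

def P : ℕ := 223
def BB : ℕ := 1920

def rowK {α : Type} (s : ℕ) (k : List ℕ → α) : α :=
  mapF (fun j => 1 + j * s) (List.range 6) fun l1 =>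
  mapF (fun x => x ^ 6) l1 fun z1 =>
  mapF (fun i => sz (fun j => U i j) 0 z1) (List.range 5) fun q =>
  mapF (fun x => 6 * x ^ 5) q fun q5 =>
  mapF (fun x => x ^ 6) q fun z2 =>
  mapF (fun a => sz (fun i => Cc a i) 0 z2) (List.range 38) fun g =>
  mapF (fun x => 6 * x ^ 5) g fun g5 =>
  mapF (fun i => sz (fun a => Cc a i) 0 g5) (List.range 5) fun GG =>
  mapF (fun x => x) (List.zipWith (fun x y => x * y) GG q5) fun Gq =>
  mapF (fun x => 6 * x ^ 5) l1 fun l5 =>
  mapF (fun x => x) ((g5.flatMap fun x => z2.map fun y => x * y % P) ++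
    ((Gq.flatMap fun x => (z1.take 5).map fun y => x * y % P) ++
    List.zipWith (fun j y => sz (fun i => U i j) 0 Gq * y * s % P) (List.range 2) (l5.take 2))) k

lemma zipWith_map_range (f : ℕ → ℕ → ℕ) (g h : ℕ → ℕ) (n : ℕ) :
    List.zipWith f ((List.range n).map g) ((List.range n).map h) =
      (List.range n).map fun i => f (g i) (h i) := by
  rw [List.zipWith_map, List.zipWith_self]

theorem rowK_eq {α : Type} (s : ℕ) (k : List ℕ → α) :
    rowK s k = k (vL.map fun v => entry s v % P) := by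
  unfold rowK
  simp only [mapF_eq]
  have e1 : (List.range 6).map (fun j => 1 + j * s) = (List.range 6).map (fun j => h1 s j) := rfl
  rw [e1]
  simp only [List.map_map, Function.comp_def]
  have e2 : ∀ i, sz (fun j => U i j) 0 ((List.range 6).map fun x => h1 s x ^ 6) = h2 s i := by
    intro i
    rw [sz_map]; rfl
  simp only [e2]
  have e3 : ∀ a, sz (fun i => Cc a i) 0 ((List.range 5).map fun x => h2 s x ^ 6) = h3 s a := by
    intro a
    rw [sz_map]; rfl
  simp only [e3]
  have e4 : ∀ i, sz (fun a => Cc a i) 0 ((List.range 38).map fun x => 6 * h3 s x ^ 5) =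
      G' s i := by
    intro i
    rw [sz_map]; rfl
  simp only [e4, zipWith_map_range]
  simp only [List.map_id']
  have e5 : (((List.range 6).map fun x => h1 s x ^ 6).take 5) =
      (List.range 5).map fun x => h1 s x ^ 6 := by
    rw [← List.map_take]; rfl
  have e6 : (((List.range 6).map fun x => 6 * h1 s x ^ 5).take 2) =
      (List.range 2).map fun x => 6 * h1 s x ^ 5 := by
    rw [← List.map_take]; rfl
  rw [e5, e6]
  have e7 : List.zipWith (fun j y => sz (fun i => U i j) 0
      ((List.range 5).map fun i => G' s i * (6 * h2 s i ^ 5)) * y * s % P) (List.range 2)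
      ((List.range 2).map fun x => 6 * h1 s x ^ 5) =
      (List.range 2).map fun j => entry s (0, j, 1) % P := by
    rw [List.zipWith_map_right, List.zipWith_self]
    apply List.map_congr_left
    intro j _
    rw [sz_map]
    rfl
  rw [e7]
  unfold vL
  rw [List.map_append, List.map_append, List.map_flatMap, List.map_flatMap, List.flatMap_map,
    List.flatMap_map]
  simp only [List.map_map, Function.comp_def]
  rfl

def check : Bool :=
  force (2 ^ BB - 1) fun mask =>
  mapF (fun s => rowK s (enc BB)) (List.range 217) fun Rs => elim BB mask P 217 Rs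

end Pool.Agent.H217R3.Num
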